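import Pool.Agent.Helper578.SE.Ord

namespace Pool.Agent.Helper578.SE

open Primrec

lemma isPre_prim : PrimrecRel IsPre :=
  Primrec.eq.comp₂ (list_take.comp₂ (list_length.comp fst).to₂ snd.to₂) fst.to₂

lemma leftOf_prim : PrimrecRel LeftOf := by
  have h1 : PrimrecRel (fun (j : ℕ) (p : List ℕ × List ℕ) =>
      p.1.take j = p.2.take j ∧ j < p.1.length ∧ p.1.getD j 0 < p.2.getD j 0) := by
    refine PrimrecPred.and ?_ (PrimrecPred.and ?_ ?_)
    · exact Primrec.eq.comp (list_take.comp fst (fst.comp snd)) (list_take.comp fst (snd.comp snd))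
    · exact nat_lt.comp fst (list_length.comp (fst.comp snd))
    · exact nat_lt.comp ((list_getD 0).comp (fst.comp snd) fst)
        ((list_getD 0).comp (snd.comp snd) fst)
  exact (h1.exists_mem_list.comp (list_range.comp (list_length.comp snd)) Primrec.id)

lemma cnt_prim : Primrec₂ cnt := by
  classical
  have h1 : PrimrecRel (fun (δ ρ : List ℕ) => IsPre ρ δ) := isPre_prim.swap
  have h2 := list_length.comp₂ h1.listFilter
  refine h2.of_eq fun h ρ => ?_
  unfold cnt
  congr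

section

variable {w : ℕ → ℕ → ℕ}

lemma child_prim (hw : Primrec₂ w) :
    Primrec (fun p : ℕ × List (List ℕ) × List ℕ => child w p.1 p.2.1 p.2.2) := by
  have hρ : Primrec (fun p : ℕ × List (List ℕ) × List ℕ => p.2.2) := snd.comp snd
  have hwp : Primrec (fun p : ℕ × List (List ℕ) × List ℕ => w p.1 p.2.2.length) :=
    hw.comp fst (list_length.comp hρ)
  have h0 : Primrec (fun p : ℕ × List (List ℕ) × List ℕ => p.2.2 ++ [0]) :=
    list_append.comp hρ (const [0])
  have h1 : Primrec (fun p : ℕ × List (List ℕ) × List ℕ => p.2.2 ++ [w p.1 p.2.2.length + 1]) :=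
    list_concat.comp hρ (succ.comp hwp)
  exact Primrec.ite (nat_lt.comp (cnt_prim.comp (fst.comp snd) h0) hwp) h0 h1

lemma stp_prim (hw : Primrec₂ w) :
    Primrec (fun p : ℕ × List (List ℕ) × List ℕ => stp w p.1 p.2.1 p.2.2) := by
  have hρ : Primrec (fun p : ℕ × List (List ℕ) × List ℕ => p.2.2) := snd.comp snd
  exact Primrec.ite (Primrec.eq.comp
    (nat_mod.comp (cnt_prim.comp (fst.comp snd) hρ) (const 2)) (const 0)) hρ (child_prim hw)

lemma path_prim (hw : Primrec₂ w) : Primrec₂ (path w) := by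
  have h : Primrec₂ (fun (p : ℕ × List (List ℕ)) (ρ : List ℕ) => stp w p.1 p.2 ρ) :=
    (stp_prim hw).comp (Primrec.pair (fst.comp fst) (Primrec.pair (snd.comp fst) snd))
  exact nat_iterate (succ.comp fst) (const []) h

lemma hist_prim (hw : Primrec₂ w) : Primrec (hist w) := by
  have h : Primrec₂ (fun (s : ℕ) (h : List (List ℕ)) => h ++ [path w s h]) :=
    list_concat.comp snd (path_prim hw)
  exact nat_rec₁ [] h

lemma dl_prim (hw : Primrec₂ w) : Primrec (dl w) :=
  (path_prim hw).comp Primrec.id (hist_prim hw)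

lemma node_prim : Primrec₂ node :=
  list_take.comp (fst.comp snd) ((list_getD []).comp fst (snd.comp snd))

lemma kept_prim :
    Primrec (fun p : (List ℕ × List (List ℕ)) × List (ℕ × ℕ) => kept p.1.1 p.1.2 p.2) := by
  classical
  have h1 : PrimrecRel (fun (q : ℕ × ℕ) (p : List ℕ × List (List ℕ)) =>
      ¬ LeftOf p.1 (node p.2 q)) :=
    PrimrecPred.not (leftOf_prim.comp (fst.comp snd) (node_prim.comp (snd.comp snd) fst))
  refine (h1.listFilter.comp snd fst).of_eq fun p => ?_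
  unfold kept
  congr

lemma addOk_prim : PrimrecPred (fun p : ℕ × (List ℕ × List (List ℕ)) × List (ℕ × ℕ) =>
    AddOk p.2.1.1 p.2.1.2 p.2.2 p.1) := by
  have hn : Primrec (fun p : ℕ × (List ℕ × List (List ℕ)) × List (ℕ × ℕ) => p.1) := fst
  have hpar : Primrec (fun p : ℕ × (List ℕ × List (List ℕ)) × List (ℕ × ℕ) => (p.1, p.2.1)) :=
    Primrec.pair fst (fst.comp snd)
  have hK : Primrec (fun p : ℕ × (List ℕ × List (List ℕ)) × List (ℕ × ℕ) => p.2.2) := snd.comp snd
  have h1 : PrimrecRel (fun (q : ℕ × ℕ) (p : ℕ × (List ℕ × List (List ℕ))) =>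
      q.2 + 1 = p.1 ∧ IsPre (node p.2.2 q) (p.2.1.take p.1)) := by
    refine PrimrecPred.and ?_ ?_
    · exact Primrec.eq.comp (succ.comp (snd.comp fst)) (fst.comp snd)
    · exact isPre_prim.comp (node_prim.comp (snd.comp (snd.comp snd)) fst)
        (list_take.comp (fst.comp snd) (fst.comp (snd.comp snd)))
  have h2 : PrimrecRel (fun (q : ℕ × ℕ) (p : ℕ × (List ℕ × List (List ℕ))) =>
      q.1 = p.1 ∧ node p.2.2 q = p.2.1.take p.1) := by
    refine PrimrecPred.and ?_ ?_
    · exact Primrec.eq.comp (fst.comp fst) (fst.comp snd)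
    · exact Primrec.eq.comp (node_prim.comp (snd.comp (snd.comp snd)) fst)
        (list_take.comp (fst.comp snd) (fst.comp (snd.comp snd)))
  exact PrimrecPred.and (PrimrecPred.or (Primrec.eq.comp hn (const 0))
    (h1.exists_mem_list.comp hK hpar)) (PrimrecPred.not (h2.exists_mem_list.comp hK hpar))

lemma newpr_prim :
    Primrec (fun p : ℕ × List (List ℕ) × List (ℕ × ℕ) => newpr p.1 p.2.1 p.2.2) := by
  classical
  have hs : Primrec (fun p : ℕ × List (List ℕ) × List (ℕ × ℕ) => p.1) := fst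
  have hh : Primrec (fun p : ℕ × List (List ℕ) × List (ℕ × ℕ) => p.2.1) := fst.comp snd
  have hP : Primrec (fun p : ℕ × List (List ℕ) × List (ℕ × ℕ) => p.2.2) := snd.comp snd
  have hd : Primrec (fun p : ℕ × List (List ℕ) × List (ℕ × ℕ) => p.2.1.getD p.1 []) :=
    (list_getD []).comp hh hs
  have hk : Primrec (fun p : ℕ × List (List ℕ) × List (ℕ × ℕ) =>
      kept (p.2.1.getD p.1 []) p.2.1 p.2.2) := kept_prim.comp (Primrec.pair (Primrec.pair hd hh) hP)
  have hrel : PrimrecRel (fun (n : ℕ) (p : (List ℕ × List (List ℕ)) × List (ℕ × ℕ)) =>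
      AddOk p.1.1 p.1.2 p.2 n) := addOk_prim
  have hrange : Primrec (fun p : ℕ × List (List ℕ) × List (ℕ × ℕ) =>
      List.range ((p.2.1.getD p.1 []).length + 1)) :=
    list_range.comp (succ.comp (list_length.comp hd))
  have hf : Primrec (fun p : ℕ × List (List ℕ) × List (ℕ × ℕ) =>
      (List.range ((p.2.1.getD p.1 []).length + 1)).filter
        (fun n => AddOk (p.2.1.getD p.1 []) p.2.1 (kept (p.2.1.getD p.1 []) p.2.1 p.2.2) n)) := by
    refine (hrel.listFilter.comp hrange (Primrec.pair (Primrec.pair hd hh) hk)).of_eq fun p => ?_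
    congr
  have hm : Primrec₂ (fun (p : ℕ × List (List ℕ) × List (ℕ × ℕ)) (n : ℕ) => (n, p.1)) :=
    Primrec.pair snd (fst.comp fst)
  exact list_append.comp hk (list_map hf hm)

lemma pr_prim (hw : Primrec₂ w) : Primrec (pr w) := by
  have h : Primrec₂ (fun (s : ℕ) (P : List (ℕ × ℕ)) => newpr s (hist w (s + 1)) P) :=
    newpr_prim.comp (Primrec.pair fst (Primrec.pair ((hist_prim hw).comp (succ.comp fst)) snd))
  exact nat_rec₁ [] h

lemma blocked_prim : PrimrecPred (fun p : List (ℕ × ℕ) × ℕ × ℕ => Blocked p.1 p.2.1 p.2.2) := by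
  have h1 : PrimrecRel (fun (q : ℕ × ℕ) (p : ℕ × ℕ) =>
      q.1 ≤ p.1 ∧ q.1 ≤ p.2 ∧ p.1 ≤ q.2 ∧ p.2 ≤ q.2) := by
    refine PrimrecPred.and ?_ (PrimrecPred.and ?_ (PrimrecPred.and ?_ ?_))
    · exact nat_le.comp (fst.comp fst) (fst.comp snd)
    · exact nat_le.comp (fst.comp fst) (snd.comp snd)
    · exact nat_le.comp (fst.comp snd) (snd.comp fst)
    · exact nat_le.comp (snd.comp snd) (snd.comp fst)
  exact h1.exists_mem_list.comp fst snd

lemma posOk_prim : PrimrecRel (fun (p : List (ℕ × ℕ) × ℕ × List ℕ) (q : ℕ) =>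
    PosOk p.1 p.2.1 p.2.2 q) := by
  have hP : Primrec (fun p : (List (ℕ × ℕ) × ℕ × List ℕ) × ℕ => p.1.1) := fst.comp fst
  have hx : Primrec (fun p : (List (ℕ × ℕ) × ℕ × List ℕ) × ℕ => p.1.2.1) :=
    fst.comp (snd.comp fst)
  have hl : Primrec (fun p : (List (ℕ × ℕ) × ℕ × List ℕ) × ℕ => p.1.2.2) :=
    snd.comp (snd.comp fst)
  have hq : Primrec (fun p : (List (ℕ × ℕ) × ℕ × List ℕ) × ℕ => p.2) := snd
  refine PrimrecPred.and (nat_le.comp (list_idxOf.comp hx hl) hq) (PrimrecPred.or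
    (Primrec.eq.comp (succ.comp hq) (list_length.comp hl)) (PrimrecPred.not ?_))
  exact blocked_prim.comp (Primrec.pair hP (Primrec.pair ((list_getD 0).comp hl hq)
    ((list_getD 0).comp hl (succ.comp hq))))

lemma pos_prim : Primrec (fun p : List (ℕ × ℕ) × ℕ × List ℕ => pos p.1 p.2.1 p.2.2) :=
  list_findIdx (list_range.comp (list_length.comp (snd.comp snd))) posOk_prim.decide

lemma ins_prim : Primrec (fun p : List (ℕ × ℕ) × ℕ × ℕ × List ℕ =>
    ins p.1 p.2.1 p.2.2.1 p.2.2.2) := by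
  have hP : Primrec (fun p : List (ℕ × ℕ) × ℕ × ℕ × List ℕ => p.1) := fst
  have hx : Primrec (fun p : List (ℕ × ℕ) × ℕ × ℕ × List ℕ => p.2.1) := fst.comp snd
  have hy : Primrec (fun p : List (ℕ × ℕ) × ℕ × ℕ × List ℕ => p.2.2.1) :=
    fst.comp (snd.comp snd)
  have hl : Primrec (fun p : List (ℕ × ℕ) × ℕ × ℕ × List ℕ => p.2.2.2) :=
    snd.comp (snd.comp snd)
  have hpos : Primrec (fun p : List (ℕ × ℕ) × ℕ × ℕ × List ℕ =>
      pos p.1 p.2.1 p.2.2.2 + 1) :=
    succ.comp (pos_prim.comp (Primrec.pair hP (Primrec.pair hx hl)))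
  exact list_append.comp (list_take.comp hpos hl) (list_cons.comp hy (list_drop.comp hpos hl))

lemma ord_prim (hw : Primrec₂ w) : Primrec (ord w) := by
  have h : Primrec₂ (fun (s : ℕ) (l : List ℕ) =>
      ins (pr w (s + 1)) (dl w s).length (s + 1) l) :=
    ins_prim.comp (Primrec.pair ((pr_prim hw).comp (succ.comp fst))
      (Primrec.pair (list_length.comp ((dl_prim hw).comp fst))
        (Primrec.pair (succ.comp fst) snd)))
  exact nat_rec₁ [0] h

lemma R_prim (hw : Primrec₂ w) : PrimrecRel (R w) := by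
  have h : Primrec (fun p : ℕ × ℕ => ord w (max p.1 p.2)) :=
    (ord_prim hw).comp (nat_max.comp fst snd)
  exact nat_lt.comp (list_idxOf.comp fst h) (list_idxOf.comp snd h)

lemma R_comp (hw : Primrec₂ w) : ComputablePred (fun p : ℕ × ℕ => R w p.1 p.2) := by
  obtain ⟨hd, h⟩ := R_prim hw
  exact ⟨hd, h.to_comp⟩

end

end Pool.Agent.Helper578.SE
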