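import Pool.Agent.Helper578.SE.Ord

namespace Pool.Agent.Helper578.SE

section

variable {w : ℕ → ℕ → ℕ}

/-- The sum of `g` over the neighbours in a list, and of `e` at its end. -/
def wt (g : ℕ → ℕ → ℕ) (e : ℕ → ℕ) : List ℕ → ℕ
  | [] => 0
  | [u] => e u
  | u :: v :: l => g u v + wt g e (v :: l)

lemma wt_insert {g : ℕ → ℕ → ℕ} {e : ℕ → ℕ} {u y : ℕ} (A B : List ℕ)
    (h1 : B = [] → g u y + e y ≤ e u)
    (h2 : ∀ v B', B = v :: B' → g u y + g y v ≤ g u v) :
    wt g e (A ++ u :: y :: B) ≤ wt g e (A ++ u :: B) := by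
  induction A with
  | nil =>
    rcases B with _ | ⟨v, B'⟩
    · simpa [wt] using h1 rfl
    · have := h2 v B' rfl
      simp only [List.nil_append, wt]
      omega
  | cons a A ih =>
    rcases A with _ | ⟨a', A'⟩
    · simp only [List.nil_append, List.cons_append] at ih ⊢
      have h3 : wt g e (a :: u :: y :: B) = g a u + wt g e (u :: y :: B) := rfl
      have h4 : wt g e (a :: u :: B) = g a u + wt g e (u :: B) := rfl
      omega
    · simp only [List.cons_append] at ih ⊢
      have h3 : wt g e (a :: a' :: (A' ++ u :: y :: B)) =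
        g a a' + wt g e (a' :: (A' ++ u :: y :: B)) := rfl
      have h4 : wt g e (a :: a' :: (A' ++ u :: B)) = g a a' + wt g e (a' :: (A' ++ u :: B)) := rfl
      omega

lemma wt_mono {g g' : ℕ → ℕ → ℕ} {e e' : ℕ → ℕ} (h1 : ∀ u v, g u v ≤ g' u v)
    (h2 : ∀ u, e u ≤ e' u) : ∀ l, wt g e l ≤ wt g' e' l
  | [] => le_rfl
  | [u] => h2 u
  | u :: v :: l => Nat.add_le_add (h1 u v) (wt_mono h1 h2 (v :: l))

lemma wt_double {g g' : ℕ → ℕ → ℕ} {e' : ℕ → ℕ} {T : ℕ}
    (h1 : ∀ u v, u ≤ T → v ≤ T → g' u v ≤ 2 * g u v) (h2 : ∀ u, e' u ≤ 1) :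
    ∀ l : List ℕ, (∀ u ∈ l, u ≤ T) → wt g' e' l ≤ 2 * wt g (fun _ => 0) l + 1
  | [], _ => by simp [wt]
  | [u], _ => by simpa [wt] using h2 u
  | u :: v :: l, h => by
    have h3 := wt_double h1 h2 (v :: l) (fun u hu => h u (List.mem_cons_of_mem _ hu))
    have h4 := h1 u v (h u (by simp)) (h v (by simp))
    simp only [wt] at h3 ⊢
    omega

lemma sum_le_wt {g : ℕ → ℕ → ℕ} {e : ℕ → ℕ} : ∀ (l : List ℕ) (k : ℕ), k < l.length →
    ∑ j ∈ Finset.range k, g (l.getD j 0) (l.getD (j + 1) 0) ≤ wt g e l
  | [], k, h => by simp at h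
  | [u], k, h => by
    have : k = 0 := by simpa using h
    subst this; simp
  | u :: v :: l, k, h => by
    rcases k with _ | k
    · simp
    · rw [Finset.sum_range_succ']
      have h3 := sum_le_wt (g := g) (e := e) (v :: l) k (by simpa using h)
      have h4 : wt g e (u :: v :: l) = g u v + wt g e (v :: l) := rfl
      rw [h4]
      have h5 : ∀ j, g ((u :: v :: l).getD (j + 1) 0) ((u :: v :: l).getD (j + 1 + 1) 0) =
          g ((v :: l).getD j 0) ((v :: l).getD (j + 1) 0) := fun j => by simp
      simp only [h5]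
      have h6 : g ((u :: v :: l).getD 0 0) ((u :: v :: l).getD (0 + 1) 0) = g u v := by simp
      rw [h6]
      omega

/-- The two names are in the same true interval. -/
def SameJ (w : ℕ → ℕ → ℕ) (u v : ℕ) : Prop := ∃ p, InJ w p u ∧ InJ w p v

open Classical in
/-- The indicator of a break. -/
noncomputable def brk (w : ℕ → ℕ → ℕ) (u v : ℕ) : ℕ := if SameJ w u v then 0 else 1

open Classical in
/-- The weight of a gap. -/
noncomputable def gW (w : ℕ → ℕ → ℕ) (T : ℕ) (u v : ℕ) : ℕ :=
  if SameJ w u v then 0 else if u ≤ T ∧ v ≤ T then 2 else 1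

/-- The weight of the end. -/
def eW (T : ℕ) (u : ℕ) : ℕ := if u ≤ T then 1 else 0

lemma not_sameJ (hw : Approx w) {i u v : ℕ} (hu : u ≤ ts w i) (hv : ts w i < v) :
    ¬ SameJ w u v := by
  rintro ⟨p, h1, h2⟩
  rcases Nat.lt_or_ge i p with h | h
  · have h3 := (ms_strictMono hw).monotone h
    rw [Nat.succ_eq_add_one, ms_succ] at h3
    have := h1.1
    omega
  · have h3 := (ts_strictMono hw).monotone h
    have := h2.2
    omega

lemma sameJ_new {i u v : ℕ} (hu : ts w i < u) (hv : ts w i < v) (hu' : u ≤ ts w (i + 1))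
    (hv' : v ≤ ts w (i + 1)) : SameJ w u v :=
  ⟨i + 1, ⟨by rw [ms_succ]; omega, hu'⟩, ⟨by rw [ms_succ]; omega, hv'⟩⟩

/-- The weight does not grow between consecutive true stages. -/
lemma wt_step (hw : Approx w) {i s : ℕ} (h1 : ts w i ≤ s) (h2 : s < ts w (i + 1)) :
    wt (gW w (ts w i)) (eW (ts w i)) (ord w (s + 1)) ≤
      wt (gW w (ts w i)) (eW (ts w i)) (ord w s) := by
  obtain ⟨A, u, B, h3, h4, h5, -⟩ := ord_spec (w := w) s
  rw [h3, h4]
  have hus : u ≤ s := (ord_mem s u).1 (by rw [h3]; simp)
  have hnew : ∀ v, v ≤ s → v ≤ ts w i → ¬ SameJ w v (s + 1) := fun v _ hv =>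
    not_sameJ hw hv (by omega)
  have hold : ∀ v, v ≤ s → ts w i < v → SameJ w v (s + 1) := fun v hvs hv =>
    sameJ_new hv (by omega) (by omega) (by omega)
  have hsymm : ∀ u v, SameJ w u v → SameJ w v u := fun u v ⟨p, h, h'⟩ => ⟨p, h', h⟩
  have hgu : ∀ v, v ≤ s → gW w (ts w i) v (s + 1) = if v ≤ ts w i then 1 else 0 := by
    intro v hv
    unfold gW
    by_cases h : v ≤ ts w i
    · rw [if_neg (hnew v hv h), if_neg (by omega), if_pos h]
    · rw [if_pos (hold v hv (by omega)), if_neg h]
  have hgv : ∀ v, v ≤ s → gW w (ts w i) (s + 1) v = if v ≤ ts w i then 1 else 0 := by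
    intro v hv
    unfold gW
    by_cases h : v ≤ ts w i
    · rw [if_neg (fun h' => hnew v hv h (hsymm _ _ h')), if_neg (by omega), if_pos h]
    · rw [if_pos (hsymm _ _ (hold v hv (by omega))), if_neg h]
  apply wt_insert
  · intro _
    rw [hgu u hus]
    have : eW (ts w i) (s + 1) = 0 := if_neg (by omega)
    rw [this]
    exact le_rfl
  · intro v B' hB
    have hvs : v ≤ s := (ord_mem s v).1 (by rw [h3, hB]; simp)
    rw [hgu u hus, hgv v hvs]
    have h6 := h5 v B' hB
    unfold gW
    by_cases hSJ : SameJ w u v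
    · rw [if_pos hSJ]
      -- both are new, since otherwise the gap is closed
      obtain ⟨p, hp1, hp2⟩ := hSJ
      by_cases hu : u ≤ ts w i
      · exfalso
        have hpi : p ≤ i := by
          by_contra hcon
          have h7 := (ms_strictMono hw).monotone (not_le.1 hcon)
          rw [Nat.succ_eq_add_one, ms_succ] at h7
          have := hp1.1
          omega
        have h8 := (ts_strictMono hw).monotone hpi
        exact h6 ⟨(ms w p, ts w p), (perm_ts hw p).1 (s + 1) (by simp only; omega),
          hp1.1, hp2.1, hp1.2, hp2.2⟩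
      · by_cases hv : v ≤ ts w i
        · exact absurd ⟨p, hp2, hp1⟩ (not_sameJ hw hv (not_le.1 hu))
        · rw [if_neg hu, if_neg hv]
    · rw [if_neg hSJ]
      by_cases hu : u ≤ ts w i <;> by_cases hv : v ≤ ts w i
      · rw [if_pos hu, if_pos hv, if_pos ⟨hu, hv⟩]
      · rw [if_pos hu, if_neg hv, if_neg (fun h => hv h.2)]
      · rw [if_neg hu, if_pos hv, if_neg (fun h => hu h.1)]
      · exact absurd (sameJ_new (not_le.1 hu) (not_le.1 hv) (by omega) (by omega)) hSJ

lemma wt_steps (hw : Approx w) {i s : ℕ} (h1 : ts w i ≤ s) (h2 : s ≤ ts w (i + 1)) :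
    wt (gW w (ts w i)) (eW (ts w i)) (ord w s) ≤
      wt (gW w (ts w i)) (eW (ts w i)) (ord w (ts w i)) := by
  induction s, h1 using Nat.le_induction with
  | base => exact le_rfl
  | succ s hs ih => exact (wt_step hw hs (by omega)).trans (ih (by omega))

/-- The number of breaks at the `i`-th true stage is less than `2 ^ i`. -/
lemma breaks_lt (hw : Approx w) (i : ℕ) : wt (brk w) (fun _ => 0) (ord w (ts w i)) + 1 ≤ 2 ^ i := by
  induction i with
  | zero =>
    have key : ∀ l : List ℕ, (∀ u ∈ l, u ≤ ts w 0) → wt (brk w) (fun _ => 0) l = 0 := by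
      intro l
      induction l with
      | nil => intro _; rfl
      | cons u l ih =>
        intro h
        rcases l with _ | ⟨v, l⟩
        · rfl
        · have h1 : wt (brk w) (fun _ => 0) (u :: v :: l) =
            brk w u v + wt (brk w) (fun _ => 0) (v :: l) := rfl
          rw [h1, ih (fun z hz => h z (List.mem_cons_of_mem _ hz))]
          have h2 : SameJ w u v := ⟨0, ⟨Nat.zero_le _, h u (by simp)⟩,
            ⟨Nat.zero_le _, h v (by simp)⟩⟩
          unfold brk
          rw [if_pos h2]
    rw [key _ (fun u hu => (ord_mem _ _).1 hu)]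
    simp
  | succ i ih =>
    have h1 : wt (brk w) (fun _ => 0) (ord w (ts w (i + 1))) ≤
        wt (gW w (ts w i)) (eW (ts w i)) (ord w (ts w (i + 1))) := by
      apply wt_mono
      · intro u v
        unfold brk gW
        split_ifs <;> omega
      · intro u; exact Nat.zero_le _
    have h2 := wt_steps hw (ts_lt_succ hw i).le (le_refl (ts w (i + 1)))
    have h3 : wt (gW w (ts w i)) (eW (ts w i)) (ord w (ts w i)) ≤
        2 * wt (brk w) (fun _ => 0) (ord w (ts w i)) + 1 := by
      apply wt_double (T := ts w i)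
      · intro u v hu hv
        unfold brk gW
        split_ifs <;> omega
      · intro u; unfold eW; split_ifs <;> omega
      · intro u hu; exact (ord_mem _ _).1 hu
    rw [pow_succ]
    omega

/-- If there is no break between two names then only finitely many names are between them. -/
lemma interval_bdd (hw : Approx w) {i p a b : ℕ} (ha : a ≤ ts w i) (hb : b ≤ ts w i)
    (hin : ∀ c ≤ ts w i, ¬ R w c a → ¬ R w b c → InJ w p c) (hpi : p ≤ i) :
    ∀ c, R w a c → R w c b → c ≤ ts w i := by
  have key : ∀ s, ts w i ≤ s → ∀ c ≤ s, R w a c → R w c b → c ≤ ts w i := by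
    intro s hs
    induction s, hs using Nat.le_induction with
    | base => intro c hc _ _; exact hc
    | succ s hs ih =>
      intro c hc h1 h2
      rcases Nat.lt_succ_iff_lt_or_eq.1 (Nat.lt_succ_of_le hc) with hc' | hc'
      · exact ih c (by omega) h1 h2
      · exfalso
        obtain ⟨A, u, B, h3, h4, h5, -⟩ := ord_spec (w := w) s
        have h7 : ord w (s + 1) = (A ++ [u]) ++ (s + 1) :: B := by rw [h4]; simp
        rw [hc'] at h1 h2
        have h8 : a ∈ A ++ [u] := (R_left h7 (by omega)).1 h1
        have h9 : b ∈ B := (R_right h7 (by omega)).1 h2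
        obtain ⟨v, B', hB⟩ : ∃ v B', B = v :: B' := by
          rcases B with _ | ⟨v, B'⟩
          · simp at h9
          · exact ⟨v, B', rfl⟩
        have hus : u ≤ s := (ord_mem s u).1 (by rw [h3]; simp)
        have hvs : v ≤ s := (ord_mem s v).1 (by rw [h3, hB]; simp)
        have h10 : ord w s = (A ++ [u]) ++ v :: B' := by rw [h3, hB]; simp
        have hub : R w u b := (R_right h3 (by omega)).2 h9
        have hav : R w a v := (R_left h10 (by omega)).2 h8
        have hua : ¬ R w u a := by
          intro hcon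
          rcases List.mem_append.1 h8 with h | h
          · exact R_asymm hcon ((R_left h3 (by omega)).2 h)
          · rw [List.mem_singleton.1 h] at hcon
            exact R_irrefl _ hcon
        have hbv : ¬ R w b v := by
          intro hcon
          rw [hB] at h9
          rcases List.mem_cons.1 h9 with h | h
          · rw [h] at hcon
            exact R_irrefl _ hcon
          · exact R_asymm hcon ((R_right h10 (by omega)).2 h)
        have huT : u ≤ ts w i := by
          rcases R_tri (w := w) a u with h | h | h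
          · exact ih u hus h hub
          · rw [← h]; exact ha
          · exact absurd h hua
        have hvT : v ≤ ts w i := by
          rcases R_tri (w := w) v b with h | h | h
          · exact ih v hvs hav h
          · rw [h]; exact hb
          · exact absurd h hbv
        have huJ : InJ w p u := hin u huT hua (R_asymm hub)
        have hvJ : InJ w p v := hin v hvT (R_asymm hav) hbv
        have h11 := (ts_strictMono hw).monotone hpi
        exact h5 v B' hB ⟨(ms w p, ts w p), (perm_ts hw p).1 (s + 1) (by simp only; omega),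
          huJ.1, hvJ.1, huJ.2, hvJ.2⟩
  intro c h1 h2
  exact key (max c (ts w i)) (le_max_right _ _) c (le_max_left _ _) h1 h2

end

end Pool.Agent.Helper578.SE
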