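import Pool.Agent.Helper578.SE.Count

namespace Pool.Agent.Helper578.SE

section

variable {w : ℕ → ℕ → ℕ}

lemma le_of_inJ (hw : Approx w) {i p a : ℕ} (ha : a ≤ ts w i) (hp : InJ w p a) : p ≤ i := by
  by_contra hcon
  have h7 := (ms_strictMono hw).monotone (not_le.1 hcon)
  rw [Nat.succ_eq_add_one, ms_succ] at h7
  have := hp.1
  omega

/-- Names with pairwise infinite intervals are few. -/
lemma sep_card (hw : Approx w) (i : ℕ) (S : Finset ℕ) (hS : ∀ a ∈ S, a ≤ ts w i)
    (hsep : ∀ a ∈ S, ∀ b ∈ S, R w a b → {c | R w a c ∧ R w c b}.Infinite) : S.card ≤ 2 ^ i := by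
  classical
  set l := ord w (ts w i) with hl
  let F : ℕ → ℕ := fun a => ∑ j ∈ Finset.range (l.idxOf a), brk w (l.getD j 0) (l.getD (j + 1) 0)
  have hFlt : ∀ a ∈ S, F a < 2 ^ i := by
    intro a ha
    have h1 : l.idxOf a < l.length := List.idxOf_lt_length_of_mem ((ord_mem _ _).2 (hS a ha))
    have h2 := sum_le_wt (g := brk w) (e := fun _ => 0) l _ h1
    have h3 := breaks_lt hw i
    exact lt_of_le_of_lt h2 (by rw [← hl] at h3; omega)
  have key : ∀ a ∈ S, ∀ b ∈ S, R w a b → F a ≠ F b := by
    intro a ha b hb hab hF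
    have haT := hS a ha
    have hbT := hS b hb
    have hlt : l.idxOf a < l.idxOf b := (R_iff haT hbT).1 hab
    have hbl : l.idxOf b < l.length := List.idxOf_lt_length_of_mem ((ord_mem _ _).2 hbT)
    obtain ⟨p, hp⟩ := exists_inJ hw a
    have hsum : ∑ j ∈ Finset.Ico (l.idxOf a) (l.idxOf b),
        brk w (l.getD j 0) (l.getD (j + 1) 0) = 0 := by
      have h1 := Finset.sum_range_add_sum_Ico
        (fun j => brk w (l.getD j 0) (l.getD (j + 1) 0)) hlt.le
      have h2 : F a + ∑ j ∈ Finset.Ico (l.idxOf a) (l.idxOf b),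
        brk w (l.getD j 0) (l.getD (j + 1) 0) = F b := h1
      omega
    have hz : ∀ j, l.idxOf a ≤ j → j < l.idxOf b → SameJ w (l.getD j 0) (l.getD (j + 1) 0) := by
      intro j h1 h2
      have h3 := (Finset.sum_eq_zero_iff.1 hsum) j (Finset.mem_Ico.2 ⟨h1, h2⟩)
      by_contra hne
      unfold brk at h3
      rw [if_neg hne] at h3
      exact one_ne_zero h3
    have hall : ∀ j, l.idxOf a ≤ j → j ≤ l.idxOf b → InJ w p (l.getD j 0) := by
      intro j hj
      induction j, hj using Nat.le_induction with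
      | base =>
        intro _
        rw [List.getD_eq_getElem _ _ (by omega), List.getElem_idxOf]
        exact hp
      | succ j hj ih =>
        intro h2
        obtain ⟨q, h3, h4⟩ := hz j hj (by omega)
        have := inJ_unique hw h3 (ih (by omega))
        rw [← this]; exact h4
    have hin : ∀ c ≤ ts w i, ¬ R w c a → ¬ R w b c → InJ w p c := by
      intro c hc h1 h2
      rw [R_iff hc haT] at h1
      rw [R_iff hbT hc] at h2
      have hcl : l.idxOf c < l.length := List.idxOf_lt_length_of_mem ((ord_mem _ _).2 hc)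
      have h3 := hall (l.idxOf c) (by rw [hl]; omega) (by rw [hl]; omega)
      rw [List.getD_eq_getElem _ _ hcl, List.getElem_idxOf] at h3
      exact h3
    have hb' := interval_bdd hw haT hbT hin (le_of_inJ hw haT hp)
    refine hsep a ha b hb hab ((Set.finite_Iic (ts w i)).subset ?_)
    rintro c ⟨h1, h2⟩
    exact hb' c h1 h2
  have hinj : Set.InjOn F (S : Set ℕ) := by
    intro a ha b hb hF
    rcases R_tri (w := w) a b with h | h | h
    · exact absurd hF (key a ha b hb h)
    · exact h
    · exact absurd hF.symm (key b hb a ha h)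
  have h1 := Finset.card_le_card_of_injOn (t := Finset.range (2 ^ i)) F
    (fun a ha => Finset.mem_coe.2 (Finset.mem_range.2 (hFlt a ha))) hinj
  simpa using h1

/-- The common part of the two directions. -/
lemma embed_core (hw : Approx w) {T : ℕ → ℕ → Prop} (hirr : ∀ a, ¬ T a a)
    (htr : ∀ a b c, T a b → T b c → T a c)
    (hdiff : ∀ a b p, T a b → InJ w p a → ¬ InJ w p b → {c | T a c ∧ T c b}.Infinite)
    (hcard : ∀ (i : ℕ) (S : Finset ℕ), (∀ a ∈ S, a ≤ ts w i) →
      (∀ a ∈ S, ∀ b ∈ S, T a b → {c | T a c ∧ T c b}.Infinite) → S.card ≤ 2 ^ i)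
    {f : ℕ → ℕ} (hf : ∀ a b, T a b ↔ T (f a) (f b)) (hinj : Function.Injective f) {a0 : ℕ}
    (ha : T a0 (f a0)) :
    ∃ k0, ∀ k L, IsLim w k L → ∃ l ≤ 2 ^ (k + 1), L ≤ f^[k0 + l] a0 := by
  classical
  set x : ℕ → ℕ := fun k => f^[k] a0 with hx
  have hxs : ∀ k, x (k + 1) = f (x k) := fun k => Function.iterate_succ_apply' f k a0
  have hx1 : ∀ k, T (x k) (x (k + 1)) := by
    intro k
    induction k with
    | zero => exact ha
    | succ k ih => rw [hxs (k + 1), hxs k]; rw [hxs k] at ih; exact (hf _ _).1 ih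
  have hx2 : ∀ i j, i < j → T (x i) (x j) := by
    intro i j hij
    induction j, hij using Nat.le_induction with
    | base => exact hx1 i
    | succ j _ ih => exact htr _ _ _ ih (hx1 j)
  have hxinj : Function.Injective x := by
    intro i j hij
    rcases lt_trichotomy i j with h | h | h
    · have := hx2 i j h; rw [hij] at this; exact absurd this (hirr _)
    · exact h
    · have := hx2 j i h; rw [hij] at this; exact absurd this (hirr _)
  obtain ⟨p, hp⟩ := exists_inJ hw (x 0)
  have hex : ∃ k, ¬ InJ w p (x k) := by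
    by_contra hcon
    push Not at hcon
    exact Set.infinite_of_injective_forall_mem hxinj (s := Set.Iic (ts w p))
      (fun k => (hcon k).2) (Set.finite_Iic _)
  obtain ⟨k0, hk1, hk2⟩ : ∃ k0, InJ w p (x k0) ∧ ¬ InJ w p (x (k0 + 1)) := by
    rcases h : Nat.find hex with _ | k0
    · have := Nat.find_spec hex
      rw [h] at this
      exact absurd hp this
    · refine ⟨k0, ?_, ?_⟩
      · have := Nat.find_min hex (m := k0) (by omega)
        exact not_not.1 this
      · have := Nat.find_spec hex
        rw [h] at this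
        exact this
  have hsep1 : ∀ l, {c | T (x (k0 + l)) c ∧ T c (x (k0 + l + 1))}.Infinite := by
    intro l
    induction l with
    | zero => exact hdiff _ _ p (hx1 k0) hk1 hk2
    | succ l ih =>
      refine (ih.image hinj.injOn).mono ?_
      rintro _ ⟨c, ⟨h1, h2⟩, rfl⟩
      refine ⟨?_, ?_⟩
      · rw [← add_assoc, hxs (k0 + l)]; exact (hf _ _).1 h1
      · rw [← add_assoc, hxs (k0 + l + 1)]; exact (hf _ _).1 h2
  have hsep2 : ∀ l l', l < l' → {c | T (x (k0 + l)) c ∧ T c (x (k0 + l'))}.Infinite := by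
    intro l l' hll
    refine (hsep1 l).mono ?_
    rintro c ⟨h1, h2⟩
    refine ⟨h1, ?_⟩
    rcases Nat.eq_or_lt_of_le (Nat.succ_le_of_lt hll) with h | h
    · rw [← h]; exact h2
    · exact htr _ _ _ h2 (hx2 _ _ (by omega))
  refine ⟨k0, fun k L hL => ?_⟩
  by_contra hcon
  push Not at hcon
  have hLts : L ≤ ts w (k + 1) := by
    refine lim_le_ts hw ?_ hL
    exact lt_of_lt_of_le (Nat.lt_succ_self k) ((ms_strictMono hw).id_le (k + 1))
  let S : Finset ℕ := (Finset.range (2 ^ (k + 1) + 1)).image (fun l => x (k0 + l))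
  have hSc : S.card = 2 ^ (k + 1) + 1 := by
    rw [Finset.card_image_of_injective _ (fun a b h => by
      have := hxinj h
      omega), Finset.card_range]
  have h1 := hcard (k + 1) S (by
    intro a haS
    obtain ⟨l, hl, rfl⟩ := Finset.mem_image.1 haS
    have := hcon l (by have := Finset.mem_range.1 hl; omega)
    exact (lt_of_lt_of_le this hLts).le) (by
    intro a haS b hbS hab
    obtain ⟨l, hl, rfl⟩ := Finset.mem_image.1 haS
    obtain ⟨l', hl', rfl⟩ := Finset.mem_image.1 hbS
    rcases lt_trichotomy l l' with h | h | h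
    · exact hsep2 l l' h
    · rw [h] at hab; exact absurd hab (hirr _)
    · exact absurd (htr _ _ _ hab (hx2 _ _ (by omega : k0 + l' < k0 + l))) (hirr _))
  omega

/-- A nontrivial self-embedding dominates the limits. -/
theorem embed (hw : Approx w) {f : ℕ → ℕ} (hf : ∀ a b, R w a b ↔ R w (f a) (f b)) {a0 : ℕ}
    (ha : f a0 ≠ a0) : ∃ k0, ∀ k L, IsLim w k L → ∃ l ≤ 2 ^ (k + 1), L ≤ f^[k0 + l] a0 := by
  have hinj : Function.Injective f := by
    intro a b hab
    rcases R_tri (w := w) a b with h | h | h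
    · rw [hf, hab] at h; exact absurd h (R_irrefl _)
    · exact h
    · rw [hf, hab] at h; exact absurd h (R_irrefl _)
  rcases R_tri (w := w) a0 (f a0) with h | h | h
  · exact embed_core hw (T := R w) R_irrefl (fun _ _ _ => R_trans)
      (fun a b p h1 h2 h3 => sep_of_diff hw h1 h2 h3) (fun i S => sep_card hw i S) hf hinj h
  · exact absurd h.symm ha
  · refine embed_core hw (T := fun a b => R w b a) R_irrefl (fun _ _ _ h1 h2 => R_trans h2 h1)
      ?_ ?_ (fun a b => hf b a) hinj h
    · intro a b p h1 h2 h3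
      obtain ⟨q, hq⟩ := exists_inJ hw b
      have h4 : ¬ InJ w q a := by
        intro hcon
        have := inJ_unique hw h2 hcon
        rw [this] at h3
        exact h3 hq
      refine (sep_of_diff hw h1 hq h4).mono ?_
      rintro c ⟨h5, h6⟩
      exact ⟨h6, h5⟩
    · intro i S h1 h2
      refine sep_card hw i S h1 fun a haS b hbS hab => ?_
      refine (h2 b hbS a haS hab).mono ?_
      rintro c ⟨h5, h6⟩
      exact ⟨h6, h5⟩

end

end Pool.Agent.Helper578.SE
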