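import Pool.Agent.Helper578.SE.Path

namespace Pool.Agent.Helper578.SE

open Nat.Partrec (Code)
open Nat.Partrec.Code

/-! ### The approximations -/

/-- The test used in the approximations. -/
def tst (s j v : ℕ) : Bool :=
  if j.unpair.2 = 0 then (evaln s (Denumerable.ofNat Code j.unpair.1) v).isSome.not
  else (evaln v (Denumerable.ofNat Code j.unpair.1) (j.unpair.2 - 1)).isSome

/-- The approximations: for `j = ⟨e, 0⟩` to the least argument at which the program `e` does not
halt, for `j = ⟨e, n + 1⟩` to the least halting bound of the program `e` at `n`. -/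
def W (s j : ℕ) : ℕ := (List.range s).findIdx (tst s j)

lemma W_le (s j : ℕ) : W s j ≤ s := by
  have := List.findIdx_le_length (p := tst s j) (xs := List.range s)
  simpa [W] using this

lemma W_of_lt {s j v : ℕ} (h : v < W s j) : tst s j v = false := by
  have h1 := W_le s j
  have h2 := List.not_of_lt_findIdx h
  simpa using h2

lemma W_spec {s j : ℕ} (h : W s j < s) : tst s j (W s j) = true := by
  have h1 : (List.range s).findIdx (tst s j) < (List.range s).length := by simpa [W] using h
  have h2 := List.findIdx_getElem (w := h1)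
  have h3 : (List.range s)[(List.range s).findIdx (tst s j)] = W s j := by simp [W]
  rw [h3] at h2
  exact h2

lemma le_W {s j n : ℕ} (hn : n ≤ s) (h : ∀ v < n, tst s j v = false) : n ≤ W s j := by
  by_contra hcon
  have h1 : W s j < n := not_le.1 hcon
  have h2 := W_spec (lt_of_lt_of_le h1 hn)
  rw [h _ h1] at h2
  exact absurd h2 (by simp)

lemma W_le_of {s j n : ℕ} (h : tst s j n = true) : W s j ≤ n := by
  by_contra hcon
  rw [W_of_lt (not_le.1 hcon)] at h
  exact absurd h (by simp)

lemma isSome_mono {k k' n : ℕ} {c : Code} (h : k ≤ k') (h1 : (evaln k c n).isSome = true) :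
    (evaln k' c n).isSome = true := by
  obtain ⟨x, hx⟩ := Option.isSome_iff_exists.1 h1
  exact Option.isSome_iff_exists.2 ⟨x, evaln_mono h hx⟩

lemma tst_mono {s j v : ℕ} (h : tst s j v = false) : tst (s + 1) j v = false := by
  unfold tst at h ⊢
  split_ifs at h ⊢ with h0
  · rw [Bool.not_eq_false'] at h ⊢
    exact isSome_mono (Nat.le_succ s) h
  · exact h

lemma approx_W : Approx W := by
  refine ⟨W_le, fun s j => ?_⟩
  exact le_W ((W_le s j).trans (Nat.le_succ s)) fun v hv => tst_mono (W_of_lt hv)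

lemma W_prim : Primrec₂ W := by
  have h : Primrec₂ (fun (p : ℕ × ℕ) (v : ℕ) => tst p.1 p.2 v) := by
    have hs : Primrec (fun q : (ℕ × ℕ) × ℕ => q.1.1) := Primrec.fst.comp Primrec.fst
    have hj : Primrec (fun q : (ℕ × ℕ) × ℕ => q.1.2) := Primrec.snd.comp Primrec.fst
    have hv : Primrec (fun q : (ℕ × ℕ) × ℕ => q.2) := Primrec.snd
    have he : Primrec (fun q : (ℕ × ℕ) × ℕ => Denumerable.ofNat Code q.1.2.unpair.1) :=
      (Primrec.ofNat Code).comp (Primrec.fst.comp (Primrec.unpair.comp hj))
    have hm : Primrec (fun q : (ℕ × ℕ) × ℕ => q.1.2.unpair.2) :=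
      Primrec.snd.comp (Primrec.unpair.comp hj)
    refine Primrec.ite (Primrec.eq.comp hm (Primrec.const 0)) ?_ ?_
    · exact Primrec.not.comp (Primrec.option_isSome.comp
        (primrec_evaln.comp (Primrec.pair (Primrec.pair hs he) hv)))
    · exact Primrec.option_isSome.comp
        (primrec_evaln.comp (Primrec.pair (Primrec.pair hv he) (Primrec.pred.comp hm)))
  exact Primrec.list_findIdx (Primrec.list_range.comp Primrec.fst) h

/-- The first kind of approximation. -/
lemma lim_A {e n : ℕ} (hn : ¬ (eval (Denumerable.ofNat Code e) n).Dom)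
    (hmin : ∀ v < n, (eval (Denumerable.ofNat Code e) v).Dom) : IsLim W (Nat.pair e 0) n := by
  have ht : ∀ s v, tst s (Nat.pair e 0) v = (evaln s (Denumerable.ofNat Code e) v).isSome.not := by
    intro s v; simp [tst]
  have hnone : ∀ s, tst s (Nat.pair e 0) n = true := by
    intro s
    rw [ht]
    by_contra hcon
    rw [Bool.not_eq_true, Bool.not_eq_false'] at hcon
    obtain ⟨x, hx⟩ := Option.isSome_iff_exists.1 hcon
    exact hn (Part.dom_iff_mem.2 ⟨x, evaln_sound hx⟩)
  refine ⟨fun s => W_le_of (hnone s), ?_⟩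
  have hex : ∀ m ≤ n, ∃ s0, ∀ v < m, (evaln s0 (Denumerable.ofNat Code e) v).isSome = true := by
    intro m
    induction m with
    | zero => intro _; exact ⟨0, fun v hv => absurd hv (Nat.not_lt_zero v)⟩
    | succ m ih =>
      intro hm
      obtain ⟨s0, hs0⟩ := ih (by omega)
      obtain ⟨x, hx⟩ := Part.dom_iff_mem.1 (hmin m (by omega))
      obtain ⟨k, hk⟩ := evaln_complete.1 hx
      refine ⟨max s0 k, fun v hv => ?_⟩
      rcases Nat.lt_succ_iff_lt_or_eq.1 hv with h | h
      · exact isSome_mono (le_max_left _ _) (hs0 v h)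
      · rw [h]
        exact isSome_mono (le_max_right _ _) (Option.isSome_iff_exists.2 ⟨x, hk⟩)
  obtain ⟨s0, hs0⟩ := hex n le_rfl
  refine ⟨max s0 n, fun s hs => le_antisymm (W_le_of (hnone s)) ?_⟩
  refine le_W (by omega) fun v hv => ?_
  rw [ht, isSome_mono (by omega : s0 ≤ s) (hs0 v hv)]
  rfl

/-- The second kind of approximation. -/
lemma lim_B {e n v : ℕ} (hv : (evaln v (Denumerable.ofNat Code e) n).isSome = true)
    (hmin : ∀ u < v, ¬ (evaln u (Denumerable.ofNat Code e) n).isSome = true) :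
    IsLim W (Nat.pair e (n + 1)) v := by
  have ht : ∀ s u, tst s (Nat.pair e (n + 1)) u =
      (evaln u (Denumerable.ofNat Code e) n).isSome := by
    intro s u; simp [tst]
  refine ⟨fun s => W_le_of (by rw [ht]; exact hv), v, fun s hs => ?_⟩
  refine le_antisymm (W_le_of (by rw [ht]; exact hv)) (le_W hs fun u hu => ?_)
  rw [ht]
  exact Bool.eq_false_iff.2 (hmin u hu)

/-! ### Functions recursive in a total function -/

/-- The total function `g` is recursive in the total function `f`. -/
def Rc (f g : ℕ → ℕ) : Prop :=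
  Nat.RecursiveIn {fun n => Part.some (f n)} (fun n => Part.some (g n))

section

variable {f g h : ℕ → ℕ}

lemma Rc.oracle : Rc f f := Nat.RecursiveIn.oracle _ rfl

lemma Rc.prim (hg : Primrec g) : Rc f g := (Primrec.nat_iff.1 hg).recursiveIn

lemma Rc.comp (hg : Rc f g) (hh : Rc f h) : Rc f (fun n => g (h n)) :=
  (Nat.RecursiveIn.comp hg hh).of_eq fun n => by simp

lemma Rc.pair (hg : Rc f g) (hh : Rc f h) : Rc f (fun n => Nat.pair (g n) (h n)) :=
  (Nat.RecursiveIn.pair hg hh).of_eq fun n => by simp [Seq.seq]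

lemma Rc.comp₂ {F : ℕ → ℕ → ℕ} (hF : Primrec₂ F) (hg : Rc f g) (hh : Rc f h) :
    Rc f (fun n => F (g n) (h n)) := by
  have h1 : Primrec (fun p : ℕ => F p.unpair.1 p.unpair.2) :=
    hF.comp (Primrec.fst.comp Primrec.unpair) (Primrec.snd.comp Primrec.unpair)
  have h2 := (Rc.prim (f := f) h1).comp (hg.pair hh)
  simpa using h2

lemma Rc.prec (hg : Rc f g) (hh : Rc f h) : Rc f (fun p =>
    Nat.rec (g p.unpair.1) (fun y ih => h (Nat.pair p.unpair.1 (Nat.pair y ih))) p.unpair.2) := by
  refine (Nat.RecursiveIn.prec hg hh).of_eq fun p => ?_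
  dsimp only
  induction p.unpair.2 with
  | zero => rfl
  | succ n ih =>
    simp only at ih ⊢
    rw [ih]
    simp

/-- The iterates are recursive in the function. -/
lemma Rc.iter (a : ℕ) : Rc f (fun n => f^[n] a) := by
  have h1 : Rc f (fun q : ℕ => f (q.unpair.2.unpair.2)) := by
    refine Rc.comp Rc.oracle (Rc.prim ?_)
    exact Primrec.snd.comp (Primrec.unpair.comp (Primrec.snd.comp Primrec.unpair))
  have h2 : Rc f (fun _ : ℕ => a) := Rc.prim (Primrec.const a)
  have h3 := (Rc.prec h2 h1).comp (Rc.pair (Rc.prim (Primrec.const 0)) (Rc.prim Primrec.id))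
  refine Nat.RecursiveIn.of_eq h3 fun n => ?_
  simp only [Nat.unpair_pair, id_eq]
  congr 1
  induction n with
  | zero => rfl
  | succ n ih => simp only [Function.iterate_succ_apply', ← ih]

/-- The running maximum. -/
def mx (g : ℕ → ℕ) (n : ℕ) : ℕ := Nat.rec (g 0) (fun y ih => max ih (g (y + 1))) n

lemma le_mx (g : ℕ → ℕ) {l n : ℕ} (h : l ≤ n) : g l ≤ mx g n := by
  induction n with
  | zero => rw [Nat.le_zero.1 h]; exact le_rfl
  | succ n ih =>
    have h1 : mx g (n + 1) = max (mx g n) (g (n + 1)) := rfl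
    rcases Nat.le_succ_iff.1 h with h2 | h2
    · exact (ih h2).trans (by rw [h1]; exact le_max_left _ _)
    · rw [h2, h1]; exact le_max_right _ _

lemma Rc.mx (hg : Rc f g) : Rc f (mx g) := by
  have h1 : Rc f (fun q : ℕ => max (q.unpair.2.unpair.2) (g (q.unpair.2.unpair.1 + 1))) := by
    refine Rc.comp₂ (F := max) Primrec.nat_max (Rc.prim ?_) (Rc.comp hg (Rc.prim ?_))
    · exact Primrec.snd.comp (Primrec.unpair.comp (Primrec.snd.comp Primrec.unpair))
    · exact Primrec.succ.comp
        (Primrec.fst.comp (Primrec.unpair.comp (Primrec.snd.comp Primrec.unpair)))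
  have h2 : Rc f (fun _ : ℕ => g 0) := Rc.prim (Primrec.const _)
  have h3 := (Rc.prec h2 h1).comp (Rc.pair (Rc.prim (Primrec.const 0)) (Rc.prim Primrec.id))
  refine Nat.RecursiveIn.of_eq h3 fun n => ?_
  simp only [Nat.unpair_pair, id_eq]
  rfl

/-- The running conjunction of a test given by a function. -/
def al (t : ℕ → ℕ → ℕ) (e n : ℕ) : ℕ := Nat.rec (t e 0) (fun y ih => min ih (t e (y + 1))) n

lemma Rc.al {t : ℕ → ℕ → ℕ} (ht : Rc f (fun q => t q.unpair.1 q.unpair.2)) :
    Rc f (fun q => al t q.unpair.1 q.unpair.2) := by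
  have h1 : Rc f (fun q : ℕ => min (q.unpair.2.unpair.2)
      (t q.unpair.1 (q.unpair.2.unpair.1 + 1))) := by
    refine Rc.comp₂ (F := min) Primrec.nat_min (Rc.prim ?_) ?_
    · exact Primrec.snd.comp (Primrec.unpair.comp (Primrec.snd.comp Primrec.unpair))
    · have h2 : Rc f (fun q : ℕ => Nat.pair q.unpair.1 (q.unpair.2.unpair.1 + 1)) := by
        refine Rc.prim (Primrec₂.natPair.comp (Primrec.fst.comp Primrec.unpair) ?_)
        exact Primrec.succ.comp
          (Primrec.fst.comp (Primrec.unpair.comp (Primrec.snd.comp Primrec.unpair)))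
      have h3 := Rc.comp ht h2
      simpa using h3
  have h2 : Rc f (fun e : ℕ => t e 0) := by
    have h3 : Rc f (fun e : ℕ => Nat.pair e 0) :=
      Rc.prim (Primrec₂.natPair.comp Primrec.id (Primrec.const 0))
    have h4 := Rc.comp ht h3
    simpa using h4
  have h3 := Rc.prec h2 h1
  refine Nat.RecursiveIn.of_eq h3 fun q => ?_
  simp only [Nat.unpair_pair]
  rfl

lemma al_one {t : ℕ → ℕ → ℕ} {e N : ℕ} (h : ∀ n, t e n = 1) : al t e N = 1 := by
  induction N with
  | zero => exact h 0
  | succ N ih =>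
    have h1 : al t e (N + 1) = min (al t e N) (t e (N + 1)) := rfl
    rw [h1, ih, h, min_self]

lemma al_zero {t : ℕ → ℕ → ℕ} {e n N : ℕ} (hn : n ≤ N) (h : t e n = 0) : al t e N = 0 := by
  induction N with
  | zero => rw [Nat.le_zero.1 hn] at h; exact h
  | succ N ih =>
    have h1 : al t e (N + 1) = min (al t e N) (t e (N + 1)) := rfl
    rcases Nat.le_succ_iff.1 hn with h2 | h2
    · rw [h1, ih h2, Nat.zero_min]
    · rw [h1, ← Nat.succ_eq_add_one, ← h2, h, Nat.min_zero]

end

/-- The bounded halting test. -/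
def G (m q : ℕ) : ℕ :=
  if (evaln m (Denumerable.ofNat Code q.unpair.1) q.unpair.2).isSome then 1 else 0

lemma G_prim : Primrec₂ G := by
  have hm : Primrec (fun p : ℕ × ℕ => p.1) := Primrec.fst
  have he : Primrec (fun p : ℕ × ℕ => Denumerable.ofNat Code p.2.unpair.1) :=
    (Primrec.ofNat Code).comp (Primrec.fst.comp (Primrec.unpair.comp Primrec.snd))
  have hn : Primrec (fun p : ℕ × ℕ => p.2.unpair.2) :=
    Primrec.snd.comp (Primrec.unpair.comp Primrec.snd)
  refine Primrec.ite ?_ (Primrec.const 1) (Primrec.const 0)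
  exact Primrec.eq.comp (Primrec.option_isSome.comp
    (primrec_evaln.comp (Primrec.pair (Primrec.pair hm he) hn))) (Primrec.const true)

open Classical in
/-- A function whose iterates bound the limits computes the set of total indices. -/
theorem tot_reducible (f : ℕ → ℕ) (a k0 : ℕ)
    (h : ∀ k L, IsLim W k L → ∃ l ≤ 2 ^ (k + 1), L ≤ f^[k0 + l] a) :
    TuringReducible
      (fun e : ℕ => Part.some
        (if ∀ n : ℕ, (eval (Denumerable.ofNat Code e) n).Dom then 1 else 0))
      (fun n : ℕ => Part.some (f n)) := by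
  refine RecursiveIn.iff_nat.2 ?_
  set M : ℕ → ℕ := fun k => mx (fun l => f^[k0 + l] a) (2 ^ (k + 1)) with hM
  have hMb : ∀ k L, IsLim W k L → L ≤ M k := by
    intro k L hL
    obtain ⟨l, hl, h1⟩ := h k L hL
    exact h1.trans (le_mx (fun l => f^[k0 + l] a) hl)
  have hMrc : Rc f M := by
    have h1 : Rc f (fun l => f^[k0 + l] a) :=
      (Rc.iter a).comp (Rc.prim (Primrec.nat_add.comp (Primrec.const k0) Primrec.id))
    have h2 : Primrec (fun k : ℕ => 2 ^ (k + 1)) :=
      (Primrec₂.unpaired'.1 Nat.Primrec.pow).comp (Primrec.const 2) Primrec.succ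
    exact (Rc.mx h1).comp (Rc.prim h2)
  set t : ℕ → ℕ → ℕ := fun e n => G (M (Nat.pair e (n + 1))) (Nat.pair e n) with ht
  have htrc : Rc f (fun q => t q.unpair.1 q.unpair.2) := by
    have h1 : Primrec (fun q : ℕ => Nat.pair q.unpair.1 (q.unpair.2 + 1)) :=
      Primrec₂.natPair.comp (Primrec.fst.comp Primrec.unpair)
        (Primrec.succ.comp (Primrec.snd.comp Primrec.unpair))
    have h2 : Primrec (fun q : ℕ => Nat.pair q.unpair.1 q.unpair.2) :=
      Primrec₂.natPair.comp (Primrec.fst.comp Primrec.unpair)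
        (Primrec.snd.comp Primrec.unpair)
    have h3 := Rc.comp₂ G_prim (hMrc.comp (Rc.prim h1)) (Rc.prim h2)
    exact h3
  have hfin : Rc f (fun e => al t e (M (Nat.pair e 0))) := by
    have h1 : Rc f (fun e => Nat.pair e (M (Nat.pair e 0))) :=
      Rc.pair (Rc.prim Primrec.id) (hMrc.comp (Rc.prim
        (Primrec₂.natPair.comp Primrec.id (Primrec.const 0))))
    have h2 := (Rc.al htrc).comp h1
    simpa using h2
  refine Nat.RecursiveIn.of_eq hfin fun e => ?_
  congr 1
  have htG : ∀ n, t e n = if (evaln (M (Nat.pair e (n + 1))) (Denumerable.ofNat Code e) n).isSome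
      then 1 else 0 := by
    intro n; simp [ht, G]
  split_ifs with htot
  · apply al_one
    intro n
    rw [htG, if_pos]
    have hex : ∃ v, (evaln v (Denumerable.ofNat Code e) n).isSome = true := by
      obtain ⟨x, hx⟩ := Part.dom_iff_mem.1 (htot n)
      obtain ⟨k, hk⟩ := evaln_complete.1 hx
      exact ⟨k, Option.isSome_iff_exists.2 ⟨x, hk⟩⟩
    have h1 := Nat.find_spec hex
    exact isSome_mono (hMb _ _ (lim_B h1 fun u hu => Nat.find_min hex hu)) h1
  · push Not at htot
    have h1 := Nat.find_spec htot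
    refine al_zero (n := Nat.find htot) (hMb _ _ (lim_A h1 fun v hv => ?_)) ?_
    · exact not_not.1 (Nat.find_min htot hv)
    · rw [htG, if_neg]
      intro hcon
      obtain ⟨x, hx⟩ := Option.isSome_iff_exists.1 hcon
      exact h1 (Part.dom_iff_mem.2 ⟨x, evaln_sound hx⟩)

end Pool.Agent.Helper578.SE
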