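import Pool.Agent.Helper578.SE.Prom

namespace Pool.Agent.Helper578.SE

/-- The gap between `u` and `v` is closed by some promise. -/
def Blocked (P : List (ℕ × ℕ)) (u v : ℕ) : Prop :=
  ∃ q ∈ P, q.1 ≤ u ∧ q.1 ≤ v ∧ u ≤ q.2 ∧ v ≤ q.2

instance (P : List (ℕ × ℕ)) (u v : ℕ) : Decidable (Blocked P u v) :=
  inferInstanceAs (Decidable (∃ q ∈ P, _))

/-- The condition on a position: at or after `x`, and its right gap is open. -/
def PosOk (P : List (ℕ × ℕ)) (x : ℕ) (l : List ℕ) (q : ℕ) : Prop :=
  l.idxOf x ≤ q ∧ (q + 1 = l.length ∨ ¬ Blocked P (l.getD q 0) (l.getD (q + 1) 0))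

instance (P : List (ℕ × ℕ)) (x : ℕ) (l : List ℕ) (q : ℕ) : Decidable (PosOk P x l q) :=
  inferInstanceAs (Decidable (_ ∧ _))

/-- The position after which the new name is inserted. -/
def pos (P : List (ℕ × ℕ)) (x : ℕ) (l : List ℕ) : ℕ :=
  (List.range l.length).findIdx (fun q => PosOk P x l q)

/-- Insertion of the new name `y`. -/
def ins (P : List (ℕ × ℕ)) (x y : ℕ) (l : List ℕ) : List ℕ :=
  l.take (pos P x l + 1) ++ y :: l.drop (pos P x l + 1)

/-- The finite order at stage `s`, a list of the names `0, ..., s`. -/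
def ord (w : ℕ → ℕ → ℕ) (s : ℕ) : List ℕ :=
  Nat.rec (motive := fun _ => List ℕ) [0]
    (fun s l => ins (pr w (s + 1)) (dl w s).length (s + 1) l) s

/-- The linear order. -/
def R (w : ℕ → ℕ → ℕ) (a b : ℕ) : Prop :=
  (ord w (max a b)).idxOf a < (ord w (max a b)).idxOf b

lemma pos_spec {P : List (ℕ × ℕ)} {x : ℕ} {l : List ℕ} (hx : x ∈ l) :
    pos P x l < l.length ∧ PosOk P x l (pos P x l) ∧ ∀ q < pos P x l, ¬ PosOk P x l q := by
  have hlen : 0 < l.length := List.length_pos_of_mem hx
  have hex : ∃ q ∈ List.range l.length, (fun q => decide (PosOk P x l q)) q = true := by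
    refine ⟨l.length - 1, List.mem_range.2 (by omega), ?_⟩
    simp only [decide_eq_true_eq]
    have := List.idxOf_lt_length_of_mem hx
    exact ⟨by omega, Or.inl (by omega)⟩
  have h1 : pos P x l < (List.range l.length).length := List.findIdx_lt_length_of_exists hex
  have h2 := List.findIdx_getElem (w := h1)
  have h3 : pos P x l < l.length := by simpa using h1
  refine ⟨h3, ?_, fun q hq hcon => ?_⟩
  · have : (List.range l.length)[pos P x l] = pos P x l := by simp
    unfold pos at this h2 ⊢
    rw [this] at h2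
    simpa using h2
  · have h4 := List.not_of_lt_findIdx hq
    simp at h4
    exact h4 hcon

/-- The element `v` is the right neighbour of `u` in the list. -/
def Adj (l : List ℕ) (u v : ℕ) : Prop := ∃ A B, l = A ++ u :: v :: B

lemma ins_spec {P : List (ℕ × ℕ)} {x : ℕ} {l : List ℕ} (y : ℕ) (hx : x ∈ l) :
    ∃ A u B, l = A ++ u :: B ∧ ins P x y l = A ++ u :: y :: B ∧
      (∀ v B', B = v :: B' → ¬ Blocked P u v) ∧
      ((∀ v, Adj l x v → ¬ Blocked P x v) → u = x) := by
  obtain ⟨h1, h2, h3⟩ := pos_spec (P := P) hx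
  have hl : l = l.take (pos P x l) ++ l[pos P x l] :: l.drop (pos P x l + 1) := by
    rw [← List.drop_eq_getElem_cons h1, List.take_append_drop]
  refine ⟨l.take (pos P x l), l[pos P x l], l.drop (pos P x l + 1), hl, ?_, ?_, ?_⟩
  · unfold ins
    rw [List.take_succ_eq_append_getElem h1, List.append_assoc]
    rfl
  · intro v B' hB hbl
    have h4 : pos P x l + 1 < l.length := by
      by_contra hcon
      rw [List.drop_eq_nil_of_le (by omega)] at hB
      exact absurd hB (by simp)
    have h5 : v = l[pos P x l + 1] := by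
      rw [List.drop_eq_getElem_cons h4] at hB
      exact (List.cons.inj hB).1.symm
    rcases h2.2 with h6 | h6
    · omega
    · apply h6
      rw [List.getD_eq_getElem _ _ h1, List.getD_eq_getElem _ _ h4, ← h5]
      exact hbl
  · intro hopen
    have hi := List.idxOf_lt_length_of_mem hx
    have hgx : l[l.idxOf x] = x := List.getElem_idxOf hi
    have h4 : PosOk P x l (l.idxOf x) := by
      refine ⟨le_rfl, ?_⟩
      by_cases h5 : l.idxOf x + 1 = l.length
      · exact Or.inl h5
      · right
        have h6 : l.idxOf x + 1 < l.length := by omega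
        rw [List.getD_eq_getElem _ _ hi, List.getD_eq_getElem _ _ h6, hgx]
        apply hopen
        refine ⟨l.take (l.idxOf x), l.drop (l.idxOf x + 1 + 1), ?_⟩
        have h7 : x :: l[l.idxOf x + 1] :: l.drop (l.idxOf x + 1 + 1) = l.drop (l.idxOf x) := by
          rw [← List.drop_eq_getElem_cons h6, List.drop_eq_getElem_cons hi, hgx]
        rw [h7, List.take_append_drop]
    have h5 : pos P x l = l.idxOf x := by
      have h6 : ¬ l.idxOf x < pos P x l := fun h => h3 _ h h4
      have h7 := h2.1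
      omega
    simp only [h5]
    exact hgx

section

variable {w : ℕ → ℕ → ℕ}

lemma ord_succ (s : ℕ) :
    ord w (s + 1) = ins (pr w (s + 1)) (dl w s).length (s + 1) (ord w s) := rfl

lemma ord_zero : ord w 0 = [0] := rfl

lemma ord_basic (s : ℕ) : (∀ u, u ∈ ord w s ↔ u ≤ s) ∧ (ord w s).Nodup := by
  induction s with
  | zero => simp [ord_zero]
  | succ s ih =>
    obtain ⟨ih1, ih2⟩ := ih
    have hx : (dl w s).length ∈ ord w s := (ih1 _).2 (dl_length s).1
    obtain ⟨A, u, B, h1, h2, -, -⟩ := ins_spec (P := pr w (s + 1)) (s + 1) hx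
    rw [← ord_succ] at h2
    have hperm : (ord w (s + 1)).Perm ((s + 1) :: ord w s) := by
      rw [h2, h1]
      have : A ++ u :: (s + 1) :: B = (A ++ [u]) ++ (s + 1) :: B := by simp
      rw [this]
      have h3 : A ++ u :: B = (A ++ [u]) ++ B := by simp
      rw [h3]
      exact List.perm_middle
    constructor
    · intro z
      rw [hperm.mem_iff, List.mem_cons, ih1]
      omega
    · rw [hperm.nodup_iff, List.nodup_cons]
      exact ⟨fun h => by have := (ih1 _).1 h; omega, ih2⟩

lemma ord_mem (s u : ℕ) : u ∈ ord w s ↔ u ≤ s := (ord_basic s).1 u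

lemma ord_nodup (s : ℕ) : (ord w s).Nodup := (ord_basic s).2

lemma ord_spec (s : ℕ) : ∃ A u B, ord w s = A ++ u :: B ∧
    ord w (s + 1) = A ++ u :: (s + 1) :: B ∧
    (∀ v B', B = v :: B' → ¬ Blocked (pr w (s + 1)) u v) ∧
    ((∀ v, Adj (ord w s) (dl w s).length v → ¬ Blocked (pr w (s + 1)) (dl w s).length v) →
      u = (dl w s).length) :=
  ins_spec (s + 1) ((ord_mem s _).2 (dl_length s).1)

/-- Comparison of positions in a list with one element inserted. -/
lemma idx_insert {A B : List ℕ} {y a b : ℕ} (ha : a ≠ y) (hb : b ≠ y) :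
    (A ++ y :: B).idxOf a < (A ++ y :: B).idxOf b ↔ (A ++ B).idxOf a < (A ++ B).idxOf b := by
  by_cases h1 : a ∈ A <;> by_cases h2 : b ∈ A
  · simp [List.idxOf_append, h1, h2]
  · have := List.idxOf_lt_length_of_mem h1
    simp only [List.idxOf_append, h1, h2, if_true, if_false]
    omega
  · have := List.idxOf_lt_length_of_mem h2
    simp only [List.idxOf_append, h1, h2, if_true, if_false]
    omega
  · simp only [List.idxOf_append, h1, h2, if_false, List.idxOf_cons_ne B (Ne.symm ha),
      List.idxOf_cons_ne B (Ne.symm hb)]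
    omega

lemma ord_lt_succ {s a b : ℕ} (ha : a ≤ s) (hb : b ≤ s) :
    (ord w (s + 1)).idxOf a < (ord w (s + 1)).idxOf b ↔
      (ord w s).idxOf a < (ord w s).idxOf b := by
  obtain ⟨A, u, B, h1, h2, -, -⟩ := ord_spec (w := w) s
  rw [h1, h2]
  have h3 : A ++ u :: (s + 1) :: B = (A ++ [u]) ++ (s + 1) :: B := by simp
  have h4 : A ++ u :: B = (A ++ [u]) ++ B := by simp
  rw [h3, h4]
  exact idx_insert (by omega) (by omega)

lemma R_iff {s a b : ℕ} (ha : a ≤ s) (hb : b ≤ s) :
    R w a b ↔ (ord w s).idxOf a < (ord w s).idxOf b := by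
  have key : ∀ t, max a b ≤ t → (R w a b ↔ (ord w t).idxOf a < (ord w t).idxOf b) := by
    intro t ht
    induction t, ht using Nat.le_induction with
    | base => exact Iff.rfl
    | succ t ht ih => rw [ih, ord_lt_succ (by omega) (by omega)]
  exact key s (by omega)

lemma R_irrefl (a : ℕ) : ¬ R w a a := by unfold R; omega

lemma R_trans {a b c : ℕ} (h1 : R w a b) (h2 : R w b c) : R w a c := by
  rw [R_iff (s := max a (max b c)) (by omega) (by omega)] at h1 h2 ⊢
  omega

lemma R_tri (a b : ℕ) : R w a b ∨ a = b ∨ R w b a := by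
  rw [R_iff (s := max a b) (by omega) (by omega), R_iff (s := max a b) (by omega) (by omega)]
  rcases lt_trichotomy ((ord w (max a b)).idxOf a) ((ord w (max a b)).idxOf b) with h | h | h
  · exact Or.inl h
  · right; left
    exact (List.idxOf_inj ((ord_mem _ _).2 (by omega))).1 h
  · exact Or.inr (Or.inr h)

lemma R_asymm {a b : ℕ} (h1 : R w a b) : ¬ R w b a := fun h2 => R_irrefl _ (R_trans h1 h2)

/-- Positions around a cut of a list without repetitions. -/
lemma idx_cut {A B : List ℕ} {u : ℕ} (hnd : (A ++ u :: B).Nodup) :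
    (A ++ u :: B).idxOf u = A.length ∧
      (∀ a ∈ A ++ u :: B, (A ++ u :: B).idxOf a ≤ A.length ↔ (a ∈ A ∨ a = u)) ∧
      (∀ a ∈ A ++ u :: B, A.length < (A ++ u :: B).idxOf a ↔ a ∈ B) := by
  have hu : u ∉ A := by
    intro h
    exact (List.disjoint_of_nodup_append hnd) h (by simp)
  have h1 : (A ++ u :: B).idxOf u = A.length := by
    simp [List.idxOf_append, hu]
  have h2 : ∀ a ∈ A ++ u :: B, (A ++ u :: B).idxOf a ≤ A.length ↔ (a ∈ A ∨ a = u) := by
    intro a ha
    by_cases h3 : a ∈ A
    · have := List.idxOf_lt_length_of_mem h3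
      simp [List.idxOf_append, h3]
      omega
    · by_cases h4 : a = u
      · subst h4; simp [h1]
      · simp only [List.idxOf_append, h3, if_false, List.idxOf_cons_ne B (Ne.symm h4), h4, or_self,
          iff_false]
        omega
  refine ⟨h1, h2, fun a ha => ?_⟩
  rw [← not_le, h2 a ha]
  have h3 : a ∈ A ∨ a = u ∨ a ∈ B := by simpa using ha
  constructor
  · tauto
  · intro hB hcon
    rcases hcon with hcon | hcon
    · exact (List.disjoint_of_nodup_append hnd) hcon (by simp [hB])
    · subst hcon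
      have := (List.nodup_append.1 hnd).2.1
      exact (List.nodup_cons.1 this).1 hB

lemma R_right {s : ℕ} {A B : List ℕ} {u : ℕ} (h : ord w s = A ++ u :: B) {b : ℕ} (hb : b ≤ s) :
    R w u b ↔ b ∈ B := by
  have hu : u ≤ s := (ord_mem s u).1 (by rw [h]; simp)
  have hnd := ord_nodup (w := w) s
  rw [R_iff hu hb, h]
  rw [h] at hnd
  obtain ⟨h1, -, h3⟩ := idx_cut hnd
  rw [h1, h3 b (by rw [← h]; exact (ord_mem s b).2 hb)]

lemma R_left {s : ℕ} {A B : List ℕ} {u : ℕ} (h : ord w s = A ++ u :: B) {a : ℕ} (ha : a ≤ s) :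
    R w a u ↔ a ∈ A := by
  have hu : u ≤ s := (ord_mem s u).1 (by rw [h]; simp)
  have hnd := ord_nodup (w := w) s
  have hau : u ∉ A := by
    intro h'
    rw [h] at hnd
    exact (List.disjoint_of_nodup_append hnd) h' (by simp)
  have h1 := R_right h ha
  have h2 : a ∈ A ∨ a = u ∨ a ∈ B := by
    have := (ord_mem (w := w) s a).2 ha
    rw [h] at this
    simpa using this
  constructor
  · intro hR
    rcases h2 with h2 | h2 | h2
    · exact h2
    · subst h2; exact absurd hR (R_irrefl _)
    · exact absurd (h1.2 h2) (R_asymm hR)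
  · intro hA
    rcases R_tri (w := w) a u with h3 | h3 | h3
    · exact h3
    · subst h3; exact absurd hA hau
    · have := h1.1 h3
      rw [h] at hnd
      exact absurd (List.mem_cons_of_mem u this) ((List.disjoint_of_nodup_append hnd) hA)

/-- Between names of different true intervals there are infinitely many names. -/
lemma sep_of_diff (hw : Approx w) {a b p : ℕ} (hab : R w a b) (ha : InJ w p a)
    (hb : ¬ InJ w p b) : {c | R w a c ∧ R w c b}.Infinite := by
  classical
  intro hfin
  set F : Set ℕ := insert a {c | R w a c ∧ R w c b} with hF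
  have hFfin : F.Finite := hfin.insert a
  set G : Set ℕ := {c | c ∈ F ∧ InJ w p c} with hG
  have hGfin : G.Finite := hFfin.subset fun c hc => hc.1
  obtain ⟨N, hN⟩ := hFfin.bddAbove
  have hNF : ∀ c ∈ F, c ≤ N := fun c hc => hN hc
  have haF : a ∈ F := Set.mem_insert _ _
  have hne : G.Nonempty := ⟨a, haF, ha⟩
  obtain ⟨u, huG, hmax⟩ := Set.exists_max_image G (fun c => (ord w N).idxOf c) hGfin hne
  have huN : u ≤ N := hNF u huG.1
  have hmax' : ∀ c ∈ G, ¬ R w u c := by
    intro c hc
    rw [R_iff huN (hNF c hc.1)]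
    have := hmax c hc
    omega
  have hub : R w u b := by
    rcases huG.1 with h | h
    · rw [h]; exact hab
    · exact h.2
  have hau : ∀ c, R w u c → R w a c := by
    intro c hc
    rcases huG.1 with h | h
    · rw [← h]; exact hc
    · exact R_trans h.1 hc
  obtain ⟨s, hs, hd⟩ := tp_terminal hw u (max (max N b) (ts w p))
  obtain ⟨A, u', B, h1, h2, -, h4⟩ := ord_spec (w := w) s
  have hlen : (dl w s).length = u := by rw [hd, tpn_length]
  rw [hlen] at h4
  have hu' : u' = u := by
    apply h4
    rintro v ⟨A', B', hv⟩ ⟨⟨n, t⟩, hq, h5, h6, h7, h8⟩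
    obtain ⟨h9, h10⟩ := active_interval hw huG.2 (by omega) hd hq h5 h7
    have hvJ : InJ w p v := ⟨by omega, by omega⟩
    have hvs : v ≤ s := (ord_mem s v).1 (by rw [hv]; simp)
    have huv : R w u v := (R_right hv hvs).2 (by simp)
    have hbB : b ∈ v :: B' := (R_right hv (by omega)).1 hub
    rcases List.mem_cons.1 hbB with hbv | hbB'
    · rw [hbv] at hb; exact hb hvJ
    · have hv2 : ord w s = (A' ++ [u]) ++ v :: B' := by rw [hv]; simp
      have hvb : R w v b := (R_right hv2 (by omega)).2 hbB'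
      exact hmax' v ⟨Or.inr ⟨hau v huv, hvb⟩, hvJ⟩ huv
  subst hu'
  have h5 : R w u' (s + 1) := (R_right h2 le_rfl).2 (by simp)
  have h6 : R w (s + 1) b := by
    have h7 : ord w (s + 1) = (A ++ [u']) ++ (s + 1) :: B := by rw [h2]; simp
    refine (R_right h7 (by omega)).2 ?_
    exact (R_right h1 (by omega)).1 hub
  have h7 : s + 1 ∈ F := Or.inr ⟨hau _ h5, h6⟩
  have := hNF _ h7
  omega

end

end Pool.Agent.Helper578.SE
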