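import Mathlib

namespace Pool.Agent.Helper578.SE

/-- `ρ` is an initial segment of `δ`. -/
def IsPre (ρ δ : List ℕ) : Prop := δ.take ρ.length = ρ

instance (ρ δ : List ℕ) : Decidable (IsPre ρ δ) := inferInstanceAs (Decidable (_ = _))

/-- `δ` is to the left of `ρ`: at the first difference `δ` is smaller. -/
def LeftOf (δ ρ : List ℕ) : Prop :=
  ∃ j ∈ List.range ρ.length, δ.take j = ρ.take j ∧ j < δ.length ∧ δ.getD j 0 < ρ.getD j 0

instance (δ ρ : List ℕ) : Decidable (LeftOf δ ρ) :=
  inferInstanceAs (Decidable (∃ j ∈ List.range ρ.length, _))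

/-- The number of members of the history that extend `ρ`. -/
def cnt (h : List (List ℕ)) (ρ : List ℕ) : ℕ := (h.filter (fun δ => IsPre ρ δ)).length

section

variable (w : ℕ → ℕ → ℕ)

/-- The child of the node `ρ` that is visited at stage `s`. -/
def child (s : ℕ) (h : List (List ℕ)) (ρ : List ℕ) : List ℕ :=
  if cnt h (ρ ++ [0]) < w s ρ.length then ρ ++ [0] else ρ ++ [w s ρ.length + 1]

/-- One step of the computation of the path. -/
def stp (s : ℕ) (h : List (List ℕ)) (ρ : List ℕ) : List ℕ :=
  if cnt h ρ % 2 = 0 then ρ else child w s h ρ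

/-- The node at which stage `s` ends. -/
def path (s : ℕ) (h : List (List ℕ)) : List ℕ := (stp w s h)^[s + 1] []

/-- The list of the nodes at which the stages before `s` ended. -/
def hist (s : ℕ) : List (List ℕ) :=
  Nat.rec (motive := fun _ => List (List ℕ)) [] (fun s h => h ++ [path w s h]) s

/-- The node at which stage `s` ends. -/
def dl (s : ℕ) : List ℕ := path w s (hist w s)

end

lemma isPre_iff {ρ δ : List ℕ} : IsPre ρ δ ↔ ρ <+: δ := by
  unfold IsPre
  rw [List.prefix_iff_eq_take]
  exact eq_comm

lemma isPre_length {ρ δ : List ℕ} (h : IsPre ρ δ) : ρ.length ≤ δ.length :=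
  (isPre_iff.1 h).length_le

lemma isPre_refl (ρ : List ℕ) : IsPre ρ ρ := isPre_iff.2 (List.prefix_refl _)

lemma isPre_nil (ρ : List ℕ) : IsPre [] ρ := isPre_iff.2 (List.nil_prefix)

lemma isPre_trans {ρ σ τ : List ℕ} (h1 : IsPre ρ σ) (h2 : IsPre σ τ) : IsPre ρ τ :=
  isPre_iff.2 ((isPre_iff.1 h1).trans (isPre_iff.1 h2))

lemma isPre_of_isPre_length {ρ σ τ : List ℕ} (h1 : IsPre ρ τ) (h2 : IsPre σ τ)
    (h : ρ.length ≤ σ.length) : IsPre ρ σ :=
  isPre_iff.2 (List.prefix_of_prefix_length_le (isPre_iff.1 h1) (isPre_iff.1 h2) h)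

lemma isPre_append (ρ σ : List ℕ) : IsPre ρ (ρ ++ σ) := isPre_iff.2 (List.prefix_append _ _)

lemma isPre_take (ρ : List ℕ) (n : ℕ) : IsPre (ρ.take n) ρ := isPre_iff.2 (List.take_prefix _ _)

lemma isPre_eq {ρ σ τ : List ℕ} (h1 : IsPre ρ τ) (h2 : IsPre σ τ)
    (h : ρ.length = σ.length) : ρ = σ := by
  have h3 := isPre_of_isPre_length h1 h2 h.le
  unfold IsPre at h3
  rw [h, List.take_length] at h3
  exact h3.symm

/-- A convenient form of being to the left. -/
lemma leftOf_iff {δ ρ : List ℕ} : LeftOf δ ρ ↔ ∃ (σ : List ℕ) (a b : ℕ),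
    IsPre (σ ++ [a]) δ ∧ IsPre (σ ++ [b]) ρ ∧ a < b := by
  constructor
  · rintro ⟨j, hj, h1, h2, h3⟩
    rw [List.mem_range] at hj
    refine ⟨δ.take j, δ.getD j 0, ρ.getD j 0, ?_, ?_, h3⟩
    · have : δ.take j ++ [δ.getD j 0] = δ.take (j + 1) := by
        rw [List.take_succ_eq_append_getElem h2, List.getD_eq_getElem _ _ h2]
      rw [this]; exact isPre_take _ _
    · have : δ.take j ++ [ρ.getD j 0] = ρ.take (j + 1) := by
        rw [h1, List.take_succ_eq_append_getElem hj, List.getD_eq_getElem _ _ hj]
      rw [this]; exact isPre_take _ _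
  · rintro ⟨σ, a, b, ha, hb, hab⟩
    obtain ⟨δ', rfl⟩ := isPre_iff.1 ha
    obtain ⟨ρ', rfl⟩ := isPre_iff.1 hb
    refine ⟨σ.length, ?_, ?_, ?_, ?_⟩
    · simp
    · simp
    · simp
    · simpa using hab

lemma leftOf_mono {δ ρ ρ' : List ℕ} (h : LeftOf δ ρ) (hp : IsPre ρ ρ') : LeftOf δ ρ' := by
  rw [leftOf_iff] at h ⊢
  obtain ⟨σ, a, b, ha, hb, hab⟩ := h
  exact ⟨σ, a, b, ha, isPre_trans hb hp, hab⟩

lemma leftOf_ext {δ δ' ρ : List ℕ} (h : LeftOf δ ρ) (hp : IsPre δ δ') : LeftOf δ' ρ := by
  rw [leftOf_iff] at h ⊢
  obtain ⟨σ, a, b, ha, hb, hab⟩ := h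
  exact ⟨σ, a, b, isPre_trans ha hp, hb, hab⟩

lemma not_leftOf_of_isPre {δ ρ : List ℕ} (h : IsPre ρ δ) : ¬ LeftOf δ ρ := by
  intro hl
  rw [leftOf_iff] at hl
  obtain ⟨σ, a, b, ha, hb, hab⟩ := hl
  have := isPre_eq ha (isPre_trans hb h) (by simp)
  have h2 := List.append_cancel_left this
  simp only [List.cons.injEq, and_true] at h2
  omega

section

variable {w : ℕ → ℕ → ℕ}

lemma hist_succ (s : ℕ) : hist w (s + 1) = hist w s ++ [dl w s] := rfl

@[simp] lemma hist_length (s : ℕ) : (hist w s).length = s := by
  induction s with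
  | zero => rfl
  | succ s ih => rw [hist_succ]; simp [ih]

lemma hist_getD {s t : ℕ} (h : t < s) : (hist w s).getD t [] = dl w t := by
  induction s with
  | zero => omega
  | succ s ih =>
    rw [hist_succ]
    rcases Nat.lt_succ_iff_lt_or_eq.1 h with h' | h'
    · rw [← ih h']
      simp [List.getD_eq_getElem?_getD, List.getElem?_append_left, h']
    · subst h'
      simp [List.getD_eq_getElem?_getD]

lemma cnt_zero (ρ : List ℕ) : cnt (hist w 0) ρ = 0 := rfl

lemma cnt_succ (s : ℕ) (ρ : List ℕ) : cnt (hist w (s + 1)) ρ =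
    cnt (hist w s) ρ + if IsPre ρ (dl w s) then 1 else 0 := by
  rw [hist_succ]
  unfold cnt
  rw [List.filter_append, List.length_append]
  congr 1
  by_cases h : IsPre ρ (dl w s) <;> simp [h]

lemma cnt_mono {s t : ℕ} (h : s ≤ t) (ρ : List ℕ) : cnt (hist w s) ρ ≤ cnt (hist w t) ρ := by
  induction t, h using Nat.le_induction with
  | base => exact le_rfl
  | succ t _ ih => rw [cnt_succ]; omega

lemma exists_of_cnt_pos {s : ℕ} {ρ : List ℕ} (h : 0 < cnt (hist w s) ρ) :
    ∃ t < s, IsPre ρ (dl w t) := by
  induction s with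
  | zero => rw [cnt_zero] at h; omega
  | succ s ih =>
    rw [cnt_succ] at h
    by_cases hp : IsPre ρ (dl w s)
    · exact ⟨s, Nat.lt_succ_self s, hp⟩
    · simp only [hp, if_false, add_zero] at h
      obtain ⟨t, ht, hp⟩ := ih h
      exact ⟨t, by omega, hp⟩

lemma child_length (s : ℕ) (h : List (List ℕ)) (ρ : List ℕ) :
    (child w s h ρ).length = ρ.length + 1 := by
  unfold child; split_ifs <;> simp

lemma isPre_child (s : ℕ) (h : List (List ℕ)) (ρ : List ℕ) : IsPre ρ (child w s h ρ) := by
  unfold child; split_ifs <;> exact isPre_append _ _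

lemma isPre_stp (s : ℕ) (h : List (List ℕ)) (ρ : List ℕ) : IsPre ρ (stp w s h ρ) := by
  unfold stp; split_ifs
  · exact isPre_refl _
  · exact isPre_child _ _ _

/-- The structure of the approximations to the path. -/
lemma iter_spec (s : ℕ) (h : List (List ℕ)) (k : ℕ) {ρ : List ℕ}
    (hρ : IsPre ρ ((stp w s h)^[k] [])) : ρ = (stp w s h)^[k] [] ∨
      (cnt h ρ % 2 = 1 ∧ IsPre (child w s h ρ) ((stp w s h)^[k] [])) := by
  induction k with
  | zero =>
    left
    simp only [Function.iterate_zero, id_eq] at hρ ⊢
    have := isPre_length hρ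
    simpa using this
  | succ k ih =>
    rw [Function.iterate_succ_apply'] at hρ ⊢
    set σ := (stp w s h)^[k] [] with hσ
    by_cases hev : cnt h σ % 2 = 0
    · have : stp w s h σ = σ := by unfold stp; rw [if_pos hev]
      rw [this] at hρ ⊢
      exact ih hρ
    · have hst : stp w s h σ = child w s h σ := by unfold stp; rw [if_neg hev]
      rw [hst] at hρ ⊢
      by_cases hlen : ρ.length ≤ σ.length
      · right
        have hρσ : IsPre ρ σ := isPre_of_isPre_length hρ (isPre_child _ _ _) hlen
        rcases ih hρσ with h1 | ⟨h1, h2⟩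
        · subst h1
          exact ⟨by omega, isPre_refl _⟩
        · exact ⟨h1, isPre_trans h2 (isPre_child _ _ _)⟩
      · left
        have := isPre_length hρ
        rw [child_length] at this
        exact isPre_eq hρ (isPre_refl _) (by rw [child_length]; omega)

lemma iter_length (s : ℕ) (h : List (List ℕ)) (k : ℕ) :
    ((stp w s h)^[k] []).length ≤ k ∧ (((stp w s h)^[k] []).length < k →
      cnt h ((stp w s h)^[k] []) % 2 = 0) := by
  induction k with
  | zero => simp
  | succ k ih =>
    rw [Function.iterate_succ_apply']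
    set σ := (stp w s h)^[k] [] with hσ
    by_cases hev : cnt h σ % 2 = 0
    · have : stp w s h σ = σ := by unfold stp; rw [if_pos hev]
      rw [this]
      exact ⟨by omega, fun _ => hev⟩
    · have hst : stp w s h σ = child w s h σ := by unfold stp; rw [if_neg hev]
      have hlen : σ.length = k := by
        by_contra hne
        exact hev (ih.2 (by omega))
      rw [hst, child_length, hlen]
      exact ⟨le_rfl, fun h => by omega⟩

lemma dl_length (s : ℕ) : (dl w s).length ≤ s ∧ cnt (hist w s) (dl w s) % 2 = 0 := by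
  induction s using Nat.strong_induction_on with
  | _ s ih =>
    have h1 := iter_length (w := w) s (hist w s) (s + 1)
    have hnot : (dl w s).length ≤ s := by
      by_contra hcon
      have hl : (dl w s).length = s + 1 := by
        have := h1.1
        unfold dl path at hcon ⊢
        omega
      -- the initial segment of length `s`
      set ρ := (dl w s).take s with hρ
      have hρl : ρ.length = s := by rw [hρ]; simp; omega
      have hpre : IsPre ρ (dl w s) := isPre_take _ _
      rcases iter_spec s (hist w s) (s + 1) hpre with h2 | ⟨h2, _⟩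
      · have : ρ.length = (dl w s).length := by rw [h2]; rfl
        omega
      · obtain ⟨t, ht, hp⟩ := exists_of_cnt_pos (w := w) (s := s) (ρ := ρ) (by omega)
        have h3 := isPre_length hp
        have h4 := (ih t ht).1
        omega
    refine ⟨hnot, ?_⟩
    apply h1.2
    unfold dl path at hnot
    omega

lemma dl_even {s : ℕ} {ρ : List ℕ} (h : IsPre ρ (dl w s)) (he : cnt (hist w s) ρ % 2 = 0) :
    dl w s = ρ := by
  rcases iter_spec s (hist w s) (s + 1) h with h1 | ⟨h1, _⟩
  · exact h1.symm
  · omega

lemma dl_odd {s : ℕ} {ρ : List ℕ} (h : IsPre ρ (dl w s)) (he : cnt (hist w s) ρ % 2 = 1) :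
    IsPre (child w s (hist w s) ρ) (dl w s) := by
  rcases iter_spec s (hist w s) (s + 1) h with h1 | ⟨_, h2⟩
  · have := (dl_length (w := w) s).2
    have h3 : dl w s = ρ := h1.symm
    rw [h3] at this
    omega
  · exact h2

lemma dl_child {s a : ℕ} {ρ : List ℕ} (h : IsPre (ρ ++ [a]) (dl w s)) :
    ρ ++ [a] = child w s (hist w s) ρ ∧ cnt (hist w s) ρ % 2 = 1 := by
  have hρ : IsPre ρ (dl w s) := isPre_trans (isPre_append _ _) h
  rcases Nat.mod_two_eq_zero_or_one (cnt (hist w s) ρ) with he | he
  · exfalso
    have h1 := dl_even hρ he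
    have h2 := isPre_length h
    rw [h1] at h2
    simp at h2
  · exact ⟨isPre_eq h (dl_odd hρ he) (by rw [child_length]; simp), he⟩

/-! ### The true path -/

/-- The approximations are monotone and bounded by the stage. -/
structure Approx (w : ℕ → ℕ → ℕ) : Prop where
  le : ∀ s j, w s j ≤ s
  mono : ∀ s j, w s j ≤ w (s + 1) j

lemma Approx.mono' (hw : Approx w) {s t : ℕ} (h : s ≤ t) (j : ℕ) : w s j ≤ w t j := by
  induction t, h using Nat.le_induction with
  | base => exact le_rfl
  | succ t _ ih => exact ih.trans (hw.mono t j)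

/-- The approximations at `j` are bounded. -/
def Bdd (w : ℕ → ℕ → ℕ) (j : ℕ) : Prop := ∃ B, ∀ s, w s j ≤ B

/-- `L` is the limit of the approximations at `j`. -/
def IsLim (w : ℕ → ℕ → ℕ) (j L : ℕ) : Prop := (∀ s, w s j ≤ L) ∧ ∃ s0, ∀ s, s0 ≤ s → w s j = L

lemma Approx.exists_lim (hw : Approx w) {j : ℕ} (hj : Bdd w j) : ∃ L, IsLim w j L := by
  classical
  have hex : ∃ B, ∀ s, w s j ≤ B := hj
  have h1 := Nat.find_spec hex
  have h2 : ∃ s0, w s0 j = Nat.find hex := by
    by_contra hcon
    push Not at hcon
    have h3 : ∀ s, w s j ≤ Nat.find hex - 1 := by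
      intro s
      have h4 := h1 s
      have h5 := hcon s
      omega
    have h6 := Nat.find_min' hex h3
    have h7 := hcon 0
    have h8 := h1 0
    omega
  obtain ⟨s0, hs0⟩ := h2
  refine ⟨Nat.find hex, h1, s0, fun s hs => le_antisymm (h1 s) ?_⟩
  rw [← hs0]; exact hw.mono' hs j

lemma IsLim.bdd {j L : ℕ} (h : IsLim w j L) : Bdd w j := ⟨L, h.1⟩

lemma IsLim.unique {j L L' : ℕ} (h : IsLim w j L) (h' : IsLim w j L') : L = L' := by
  obtain ⟨_, s0, h1⟩ := h
  obtain ⟨_, s1, h2⟩ := h'
  rw [← h1 (max s0 s1) (le_max_left _ _), h2 (max s0 s1) (le_max_right _ _)]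

open Classical in
/-- The true path. -/
noncomputable def tp (w : ℕ → ℕ → ℕ) (j : ℕ) : ℕ :=
  if h : ∃ L, IsLim w j L then h.choose + 1 else 0

lemma tp_of_lim {j L : ℕ} (h : IsLim w j L) : tp w j = L + 1 := by
  have hex : ∃ L, IsLim w j L := ⟨L, h⟩
  unfold tp
  rw [dif_pos hex, h.unique hex.choose_spec]

lemma tp_of_not {j : ℕ} (h : ¬ ∃ L, IsLim w j L) : tp w j = 0 := by
  unfold tp
  rw [dif_neg h]

/-- The initial segment of length `n` of the true path. -/
noncomputable def tpn (w : ℕ → ℕ → ℕ) (n : ℕ) : List ℕ := (List.range n).map (tp w)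

@[simp] lemma tpn_length (n : ℕ) : (tpn w n).length = n := by simp [tpn]

lemma tpn_succ (n : ℕ) : tpn w (n + 1) = tpn w n ++ [tp w n] := by
  simp [tpn, List.range_succ]

lemma tpn_isPre {m n : ℕ} (h : m ≤ n) : IsPre (tpn w m) (tpn w n) := by
  induction n, h using Nat.le_induction with
  | base => exact isPre_refl _
  | succ n _ ih => rw [tpn_succ]; exact isPre_trans ih (isPre_append _ _)

lemma reach_parity {ρ : List ℕ} (hinf : ∀ N, ∃ s ≥ N, IsPre ρ (dl w s)) (e : ℕ) (he : e < 2)
    (N : ℕ) : ∃ s ≥ N, IsPre ρ (dl w s) ∧ cnt (hist w s) ρ % 2 = e := by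
  obtain ⟨s, hs, hp⟩ := hinf N
  by_cases h : cnt (hist w s) ρ % 2 = e
  · exact ⟨s, hs, hp, h⟩
  · -- take the next stage at which `ρ` is reached
    classical
    have hex : ∃ t, s + 1 ≤ t ∧ IsPre ρ (dl w t) := by
      obtain ⟨t, ht, hp⟩ := hinf (s + 1)
      exact ⟨t, ht, hp⟩
    have h1 := Nat.find_spec hex
    have h2 : ∀ t, s + 1 ≤ t → t ≤ Nat.find hex →
        cnt (hist w t) ρ = cnt (hist w s) ρ + 1 := by
      intro t ht
      induction t, ht using Nat.le_induction with
      | base => intro _; rw [cnt_succ, if_pos hp]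
      | succ t ht ih =>
        intro hle
        rw [cnt_succ, ih (by omega), if_neg]
        intro hcon
        exact Nat.find_min hex (by omega : t < Nat.find hex) ⟨ht, hcon⟩
    refine ⟨Nat.find hex, by omega, h1.2, ?_⟩
    rw [h2 _ h1.1 le_rfl]
    omega

/-- The true path is visited infinitely often, and nodes to its left only finitely often. -/
lemma tp_spec (hw : Approx w) (n : ℕ) : (∀ N, ∃ s ≥ N, IsPre (tpn w n) (dl w s)) ∧
    ∃ N, ∀ s ≥ N, ¬ LeftOf (dl w s) (tpn w n) := by
  induction n with
  | zero =>
    refine ⟨fun N => ⟨N, le_rfl, isPre_nil _⟩, 0, fun s _ h => ?_⟩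
    exact not_leftOf_of_isPre (isPre_nil _) h
  | succ n ih =>
    obtain ⟨hinf, N0, hN0⟩ := ih
    have hpass := reach_parity hinf 1 (by norm_num)
    rw [tpn_succ]
    by_cases hlim : ∃ L, IsLim w n L
    · obtain ⟨L, hL⟩ := hlim
      rw [tp_of_lim hL]
      obtain ⟨hle, s1, hs1⟩ := hL
      -- the node for the infinite outcome is reached finitely often
      have hcnt : ∀ s, cnt (hist w s) (tpn w n ++ [0]) ≤ L := by
        intro s
        induction s with
        | zero => rw [cnt_zero]; omega
        | succ s ih =>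
          rw [cnt_succ]
          by_cases hp : IsPre (tpn w n ++ [0]) (dl w s)
          · have h1 := (dl_child hp).1
            unfold child at h1
            rw [tpn_length] at h1
            by_cases hc : cnt (hist w s) (tpn w n ++ [0]) < w s n
            · have := hle s
              rw [if_pos hp]; omega
            · rw [if_neg hc] at h1
              have h2 := List.append_cancel_left h1
              simp at h2
          · rw [if_neg hp]; omega
      have hfin0 : ∃ N1, ∀ s ≥ N1, ¬ IsPre (tpn w n ++ [0]) (dl w s) := by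
        by_contra hcon
        push Not at hcon
        have hgrow : ∀ k, ∃ s, k ≤ cnt (hist w s) (tpn w n ++ [0]) := by
          intro k
          induction k with
          | zero => exact ⟨0, Nat.zero_le _⟩
          | succ k ihk =>
            obtain ⟨s, hs⟩ := ihk
            obtain ⟨t, ht, hp⟩ := hcon s
            refine ⟨t + 1, ?_⟩
            rw [cnt_succ, if_pos hp]
            have := cnt_mono (w := w) ht (tpn w n ++ [0])
            omega
        obtain ⟨s, hs⟩ := hgrow (L + 1)
        have := hcnt s
        omega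
      obtain ⟨N1, hN1⟩ := hfin0
      have hstep : ∀ s, s1 ≤ s → N1 ≤ s → IsPre (tpn w n) (dl w s) →
          cnt (hist w s) (tpn w n) % 2 = 1 → IsPre (tpn w n ++ [L + 1]) (dl w s) := by
        intro s h1 h2 h3 h4
        have h5 := dl_odd h3 h4
        unfold child at h5
        rw [tpn_length] at h5
        by_cases hc : cnt (hist w s) (tpn w n ++ [0]) < w s n
        · rw [if_pos hc] at h5
          exact absurd h5 (hN1 s h2)
        · rw [if_neg hc, hs1 s h1] at h5
          exact h5
      refine ⟨fun N => ?_, max N0 (max N1 s1), fun s hs hleft => ?_⟩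
      · obtain ⟨s, hs, hp, hc⟩ := hpass (max N (max N1 s1))
        refine ⟨s, by omega, hstep s (by omega) (by omega) hp hc⟩
      · rw [leftOf_iff] at hleft
        obtain ⟨σ, a, b, ha, hb, hab⟩ := hleft
        have hlen := isPre_length hb
        simp only [List.length_append, tpn_length, List.length_singleton] at hlen
        rcases Nat.lt_or_ge σ.length n with hlt | hge
        · refine hN0 s (by omega) (leftOf_iff.2 ⟨σ, a, b, ha, ?_, hab⟩)
          refine isPre_of_isPre_length hb (isPre_append _ _) ?_
          simp; omega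
        · have hσ : σ.length = n := by omega
          have h1 : σ = tpn w n := by
            refine isPre_eq (isPre_trans (isPre_append _ _) hb) (isPre_append _ _) ?_
            simpa using hσ
          subst h1
          have h2 : b = L + 1 := by
            have := isPre_eq hb (isPre_refl _) (by simp)
            have h3 := List.append_cancel_left this
            simpa using h3
          subst h2
          have h4 := (dl_child ha).1
          unfold child at h4
          rw [tpn_length] at h4
          by_cases hc : cnt (hist w s) (tpn w n ++ [0]) < w s n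
          · rw [if_pos hc] at h4
            rw [h4] at ha
            exact hN1 s (by omega) ha
          · rw [if_neg hc, hs1 s (by omega)] at h4
            have h5 := List.append_cancel_left h4
            simp at h5
            omega
    · rw [tp_of_not hlim]
      have hnb : ¬ Bdd w n := fun h => hlim (hw.exists_lim h)
      refine ⟨?_, N0, fun s hs hleft => ?_⟩
      · intro N
        by_contra hcon
        push Not at hcon
        -- the count is bounded from `N` on
        have hc : ∀ s, N ≤ s → cnt (hist w s) (tpn w n ++ [0]) =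
            cnt (hist w N) (tpn w n ++ [0]) := by
          intro s hs
          induction s, hs using Nat.le_induction with
          | base => rfl
          | succ s hs ih => rw [cnt_succ, if_neg (hcon s hs), ih, add_zero]
        have hbig : ∃ s1, cnt (hist w N) (tpn w n ++ [0]) < w s1 n := by
          by_contra hcon2
          push Not at hcon2
          exact hnb ⟨_, hcon2⟩
        obtain ⟨s1, hs1⟩ := hbig
        obtain ⟨s, hs, hp, hodd⟩ := hpass (max N s1)
        have h5 := dl_odd hp hodd
        unfold child at h5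
        rw [tpn_length, hc s (by omega)] at h5
        have h6 : w s1 n ≤ w s n := hw.mono' (by omega) n
        rw [if_pos (by omega)] at h5
        exact hcon s (by omega) h5
      · rw [leftOf_iff] at hleft
        obtain ⟨σ, a, b, ha, hb, hab⟩ := hleft
        have hlen := isPre_length hb
        simp only [List.length_append, tpn_length, List.length_singleton] at hlen
        rcases Nat.lt_or_ge σ.length n with hlt | hge
        · refine hN0 s (by omega) (leftOf_iff.2 ⟨σ, a, b, ha, ?_, hab⟩)
          refine isPre_of_isPre_length hb (isPre_append _ _) ?_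
          simp; omega
        · have hσ : σ.length = n := by omega
          have h1 : σ = tpn w n := by
            refine isPre_eq (isPre_trans (isPre_append _ _) hb) (isPre_append _ _) ?_
            simpa using hσ
          subst h1
          have h2 : b = 0 := by
            have := isPre_eq hb (isPre_refl _) (by simp)
            have h3 := List.append_cancel_left this
            simpa using h3
          omega

/-- Infinitely often a stage ends exactly at a given node of the true path. -/
lemma tp_terminal (hw : Approx w) (n N : ℕ) : ∃ s ≥ N, dl w s = tpn w n := by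
  obtain ⟨s, hs, hp, he⟩ := reach_parity (tp_spec hw n).1 0 (by norm_num) N
  exact ⟨s, hs, dl_even hp he⟩

/-- When the true path is visited the limit values are right. -/
lemma lim_le_of_visit {s n k L : ℕ} (hk : k < n) (hL : IsLim w k L) (hw : Approx w)
    (hp : IsPre (tpn w n) (dl w s)) : L ≤ s := by
  have h1 : IsPre (tpn w k ++ [tp w k]) (dl w s) := by
    rw [← tpn_succ]; exact isPre_trans (tpn_isPre hk) hp
  have h2 := (dl_child h1).1
  rw [tp_of_lim hL] at h2
  unfold child at h2
  rw [tpn_length] at h2
  by_cases hc : cnt (hist w s) (tpn w k ++ [0]) < w s k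
  · rw [if_pos hc] at h2
    have := List.append_cancel_left h2
    simp at this
  · rw [if_neg hc] at h2
    have := List.append_cancel_left h2
    simp only [List.cons.injEq, add_left_inj, and_true] at this
    rw [this]; exact hw.le s k

end

end Pool.Agent.Helper578.SE
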