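import Pool.Agent.Helper578.SE.Path

namespace Pool.Agent.Helper578.SE

/-- The node of a promise, computed from the history. -/
def node (h : List (List ℕ)) (q : ℕ × ℕ) : List ℕ := (h.getD q.2 []).take q.1

/-- The promises that are not cancelled by the node `d`. -/
def kept (d : List ℕ) (h : List (List ℕ)) (P : List (ℕ × ℕ)) : List (ℕ × ℕ) :=
  P.filter (fun q => ¬ LeftOf d (node h q))

/-- The condition for a new promise at the initial segment of `d` of length `n`. -/
def AddOk (d : List ℕ) (h : List (List ℕ)) (K : List (ℕ × ℕ)) (n : ℕ) : Prop :=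
  (n = 0 ∨ ∃ q ∈ K, q.2 + 1 = n ∧ IsPre (node h q) (d.take n)) ∧
    ¬ ∃ q ∈ K, q.1 = n ∧ node h q = d.take n

instance (d : List ℕ) (h : List (List ℕ)) (K : List (ℕ × ℕ)) (n : ℕ) :
    Decidable (AddOk d h K n) := inferInstanceAs (Decidable (_ ∧ _))

/-- The update of the list of promises. -/
def newpr (s : ℕ) (h : List (List ℕ)) (P : List (ℕ × ℕ)) : List (ℕ × ℕ) :=
  kept (h.getD s []) h P ++ ((List.range ((h.getD s []).length + 1)).filter
    (fun n => AddOk (h.getD s []) h (kept (h.getD s []) h P) n)).map (fun n => (n, s))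

/-- The list of promises before stage `s`. -/
def pr (w : ℕ → ℕ → ℕ) (s : ℕ) : List (ℕ × ℕ) :=
  Nat.rec (motive := fun _ => List (ℕ × ℕ)) [] (fun s P => newpr s (hist w (s + 1)) P) s

section

variable {w : ℕ → ℕ → ℕ}

/-- The node of a promise. -/
def nd (w : ℕ → ℕ → ℕ) (q : ℕ × ℕ) : List ℕ := (dl w q.2).take q.1

lemma node_hist {s : ℕ} {q : ℕ × ℕ} (h : q.2 < s) : node (hist w s) q = nd w q := by
  unfold node nd; rw [hist_getD h]

lemma pr_succ (s : ℕ) : pr w (s + 1) = newpr s (hist w (s + 1)) (pr w s) := rfl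

lemma mem_pr_succ_aux (s : ℕ) (q : ℕ × ℕ) : q ∈ pr w (s + 1) ↔
    (q ∈ kept (dl w s) (hist w (s + 1)) (pr w s)) ∨
      (q.2 = s ∧ q.1 ≤ (dl w s).length ∧
        AddOk (dl w s) (hist w (s + 1)) (kept (dl w s) (hist w (s + 1)) (pr w s)) q.1) := by
  rw [pr_succ]
  unfold newpr
  rw [hist_getD (Nat.lt_succ_self s), List.mem_append]
  refine or_congr_right ?_
  rw [List.mem_map]
  constructor
  · rintro ⟨n, hn, rfl⟩
    rw [List.mem_filter, List.mem_range] at hn
    exact ⟨rfl, by have := hn.1; simp only; omega, by simpa using hn.2⟩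
  · rintro ⟨h1, h2, h3⟩
    refine ⟨q.1, ?_, by rw [← h1]⟩
    rw [List.mem_filter, List.mem_range]
    exact ⟨by omega, by simpa using h3⟩

lemma pr_lt {s : ℕ} {q : ℕ × ℕ} (h : q ∈ pr w s) : q.2 < s := by
  induction s with
  | zero => simp [pr] at h
  | succ s ih =>
    rw [mem_pr_succ_aux] at h
    rcases h with h | h
    · exact Nat.lt_succ_of_lt (ih (List.mem_filter.1 h).1)
    · omega

lemma mem_kept {s : ℕ} {q : ℕ × ℕ} : q ∈ kept (dl w s) (hist w (s + 1)) (pr w s) ↔
    q ∈ pr w s ∧ ¬ LeftOf (dl w s) (nd w q) := by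
  unfold kept
  rw [List.mem_filter]
  constructor
  · rintro ⟨h1, h2⟩
    rw [node_hist (Nat.lt_succ_of_lt (pr_lt h1))] at h2
    exact ⟨h1, by simpa using h2⟩
  · rintro ⟨h1, h2⟩
    rw [node_hist (Nat.lt_succ_of_lt (pr_lt h1))]
    exact ⟨h1, by simpa using h2⟩

/-- Membership in the updated list of promises. -/
lemma mem_pr_succ (s : ℕ) (q : ℕ × ℕ) : q ∈ pr w (s + 1) ↔
    (q ∈ pr w s ∧ ¬ LeftOf (dl w s) (nd w q)) ∨
      (q.2 = s ∧ q.1 ≤ (dl w s).length ∧
        (q.1 = 0 ∨ ∃ q' ∈ pr w s, ¬ LeftOf (dl w s) (nd w q') ∧ q'.2 + 1 = q.1 ∧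
          IsPre (nd w q') (nd w q)) ∧
        ¬ ∃ q' ∈ pr w s, ¬ LeftOf (dl w s) (nd w q') ∧ q'.1 = q.1 ∧ nd w q' = nd w q) := by
  rw [mem_pr_succ_aux, mem_kept]
  refine or_congr_right ?_
  constructor
  · rintro ⟨h1, h2, h3, h4⟩
    refine ⟨h1, h2, ?_, ?_⟩
    · rcases h3 with h3 | ⟨q', hq', h5, h6⟩
      · exact Or.inl h3
      · rw [mem_kept] at hq'
        rw [node_hist (Nat.lt_succ_of_lt (pr_lt hq'.1))] at h6
        refine Or.inr ⟨q', hq'.1, hq'.2, h5, ?_⟩
        unfold nd at h6 ⊢
        rw [h1]; exact h6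
    · rintro ⟨q', hq', h5, h6, h7⟩
      refine h4 ⟨q', mem_kept.2 ⟨hq', h5⟩, h6, ?_⟩
      rw [node_hist (Nat.lt_succ_of_lt (pr_lt hq')), h7]
      unfold nd; rw [h1]
  · rintro ⟨h1, h2, h3, h4⟩
    refine ⟨h1, h2, ?_, ?_⟩
    · rcases h3 with h3 | ⟨q', hq', h5, h6, h7⟩
      · exact Or.inl h3
      · refine Or.inr ⟨q', mem_kept.2 ⟨hq', h5⟩, h6, ?_⟩
        rw [node_hist (Nat.lt_succ_of_lt (pr_lt hq'))]
        unfold nd at h7 ⊢
        rw [h1] at h7; exact h7
    · rintro ⟨q', hq', h6, h7⟩
      rw [mem_kept] at hq'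
      refine h4 ⟨q', hq'.1, hq'.2, h6, ?_⟩
      rw [node_hist (Nat.lt_succ_of_lt (pr_lt hq'.1))] at h7
      rw [h7]
      unfold nd; rw [h1]

lemma pr_le_length {s : ℕ} {q : ℕ × ℕ} (h : q ∈ pr w s) : q.1 ≤ (dl w q.2).length := by
  induction s with
  | zero => simp [pr] at h
  | succ s ih =>
    rw [mem_pr_succ] at h
    rcases h with h | h
    · exact ih h.1
    · rw [h.1]; exact h.2.1

lemma nd_length {s : ℕ} {q : ℕ × ℕ} (h : q ∈ pr w s) : (nd w q).length = q.1 := by
  unfold nd
  rw [List.length_take, min_eq_left (pr_le_length h)]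

lemma pr_fst_le {s : ℕ} {q : ℕ × ℕ} (h : q ∈ pr w s) : q.1 ≤ q.2 :=
  (pr_le_length h).trans (dl_length q.2).1

lemma nd_isPre (q : ℕ × ℕ) : IsPre (nd w q) (dl w q.2) := isPre_take _ _

lemma pr_alive {s : ℕ} {q : ℕ × ℕ} (h : q ∈ pr w s) (t : ℕ) (h1 : q.2 ≤ t) (h2 : t < s) :
    ¬ LeftOf (dl w t) (nd w q) := by
  induction s with
  | zero => omega
  | succ s ih =>
    rw [mem_pr_succ] at h
    rcases Nat.lt_succ_iff_lt_or_eq.1 h2 with h3 | h3
    · rcases h with h | h
      · exact ih h.1 h3
      · omega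
    · subst h3
      rcases h with h | h
      · exact h.2
      · have : t = q.2 := h.1.symm
        rw [this]
        exact not_leftOf_of_isPre (nd_isPre q)

/-- A promise stays until it is cancelled. -/
lemma pr_persist {s s' : ℕ} {q : ℕ × ℕ} (h : q ∈ pr w s) (hs : s ≤ s')
    (hno : ∀ t, s ≤ t → t < s' → ¬ LeftOf (dl w t) (nd w q)) : q ∈ pr w s' := by
  induction s', hs using Nat.le_induction with
  | base => exact h
  | succ s' hs ih =>
    rw [mem_pr_succ]
    exact Or.inl ⟨ih (fun t h1 h2 => hno t h1 (by omega)), hno s' hs (Nat.lt_succ_self _)⟩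

/-- A promise is created at its own stage. -/
lemma pr_back {s s' : ℕ} {q : ℕ × ℕ} (h : q ∈ pr w s') (h1 : q.2 < s) (h2 : s ≤ s') :
    q ∈ pr w s := by
  induction s', h2 using Nat.le_induction with
  | base => exact h
  | succ s' hs ih =>
    rw [mem_pr_succ] at h
    rcases h with h | h
    · exact ih h.1
    · omega

lemma pr_unique {s : ℕ} {q q' : ℕ × ℕ} (h : q ∈ pr w s) (h' : q' ∈ pr w s)
    (h1 : q.1 = q'.1) (h2 : nd w q = nd w q') : q = q' := by
  induction s with
  | zero => simp [pr] at h
  | succ s ih =>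
    rw [mem_pr_succ] at h h'
    rcases h with h | h <;> rcases h' with h' | h'
    · exact ih h.1 h'.1
    · exact absurd ⟨q, h.1, h.2, h1, h2⟩ h'.2.2.2
    · exact absurd ⟨q', h'.1, h'.2, h1.symm, h2.symm⟩ h.2.2.2
    · exact Prod.ext h1 (h.1.trans h'.1.symm)

/-- The predecessor of a promise. -/
lemma pr_pred {s : ℕ} {q : ℕ × ℕ} (h : q ∈ pr w s) (h0 : q.1 ≠ 0) :
    ∃ q' ∈ pr w s, q'.2 + 1 = q.1 ∧ IsPre (nd w q') (nd w q) := by
  induction s with
  | zero => simp [pr] at h
  | succ s ih =>
    have h' := h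
    rw [mem_pr_succ] at h
    rcases h with h | h
    · obtain ⟨q', hq', h1, h2⟩ := ih h.1
      exact ⟨q', (mem_pr_succ _ _).2 (Or.inl ⟨hq', fun hl => h.2 (leftOf_mono hl h2)⟩), h1, h2⟩
    · rcases h.2.2.1 with h3 | ⟨q', hq', h3, h4, h5⟩
      · exact absurd h3 h0
      · exact ⟨q', (mem_pr_succ _ _).2 (Or.inl ⟨hq', h3⟩), h4, h5⟩

/-! ### True promises -/

/-- A permanent promise on the true path. -/
def Perm (w : ℕ → ℕ → ℕ) (q : ℕ × ℕ) : Prop := (∀ s, q.2 < s → q ∈ pr w s) ∧ nd w q = tpn w q.1

lemma exists_perm (hw : Approx w) (n : ℕ)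
    (hn : n = 0 ∨ ∃ q, Perm w q ∧ q.2 + 1 = n) : ∃ t, Perm w (n, t) := by
  obtain ⟨hinf, N, hN⟩ := tp_spec hw n
  obtain ⟨s, hs, hp⟩ := hinf (max N n)
  have hs1 : N ≤ s := by omega
  have hs2 : n ≤ s := by omega
  have htake : (dl w s).take n = tpn w n := by
    have := hp
    unfold IsPre at this
    rwa [tpn_length] at this
  have hlen : n ≤ (dl w s).length := by
    have := isPre_length hp
    rwa [tpn_length] at this
  have hex : ∃ q ∈ pr w (s + 1), q.1 = n ∧ nd w q = tpn w n := by
    by_cases hold : ∃ q' ∈ pr w s, ¬ LeftOf (dl w s) (nd w q') ∧ q'.1 = n ∧ nd w q' = tpn w n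
    · obtain ⟨q', hq', h1, h2, h3⟩ := hold
      exact ⟨q', (mem_pr_succ _ _).2 (Or.inl ⟨hq', h1⟩), h2, h3⟩
    · have hnd : nd w (n, s) = tpn w n := htake
      refine ⟨(n, s), (mem_pr_succ _ _).2 (Or.inr ⟨rfl, hlen, ?_, ?_⟩), rfl, hnd⟩
      · rcases hn with hn | ⟨q, hq, hqn⟩
        · exact Or.inl hn
        · right
          have hqs : q.2 < s := by omega
          have h1 : q ∈ pr w s := hq.1 s hqs
          have h2 : q ∈ pr w (s + 1) := hq.1 (s + 1) (by omega)
          refine ⟨q, h1, pr_alive h2 s hqs.le (Nat.lt_succ_self s), hqn, ?_⟩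
          rw [hnd, hq.2]
          have := pr_fst_le h1
          exact tpn_isPre (by omega)
      · rw [hnd]
        rintro ⟨q', hq', h1, h2, h3⟩
        exact hold ⟨q', hq', h1, h2, h3⟩
  obtain ⟨⟨n', t⟩, hq, h1, h2⟩ := hex
  simp only at h1
  subst h1
  refine ⟨t, fun s' hs' => ?_, h2⟩
  rcases Nat.lt_or_ge s (s' - 1) with h | h
  · refine pr_persist hq (by omega) fun t' ht' _ => ?_
    rw [h2]
    exact hN t' (by omega)
  · exact pr_back hq hs' (by omega)

open Classical in
/-- The creation stages of the true promises. -/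
noncomputable def ts (w : ℕ → ℕ → ℕ) : ℕ → ℕ
  | 0 => if h : ∃ t, Perm w (0, t) then h.choose else 0
  | i + 1 => if h : ∃ t, Perm w (ts w i + 1, t) then h.choose else 0

/-- The lengths of the true promises. -/
noncomputable def ms (w : ℕ → ℕ → ℕ) : ℕ → ℕ
  | 0 => 0
  | i + 1 => ts w i + 1

lemma ms_succ (i : ℕ) : ms w (i + 1) = ts w i + 1 := rfl

lemma ms_zero : ms w 0 = 0 := rfl

lemma perm_ts (hw : Approx w) (i : ℕ) : Perm w (ms w i, ts w i) := by
  induction i with
  | zero =>
    have h := exists_perm hw 0 (Or.inl rfl)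
    show Perm w (0, ts w 0)
    rw [ts, dif_pos h]
    exact h.choose_spec
  | succ i ih =>
    have h := exists_perm hw (ts w i + 1) (Or.inr ⟨_, ih, rfl⟩)
    show Perm w (ts w i + 1, ts w (i + 1))
    rw [ts, dif_pos h]
    exact h.choose_spec

lemma ms_le_ts (hw : Approx w) (i : ℕ) : ms w i ≤ ts w i :=
  pr_fst_le ((perm_ts hw i).1 (ts w i + 1) (Nat.lt_succ_self _))

lemma ts_lt_succ (hw : Approx w) (i : ℕ) : ts w i < ts w (i + 1) := by
  have := ms_le_ts hw (i + 1)
  rw [ms_succ] at this
  omega

lemma ts_strictMono (hw : Approx w) : StrictMono (ts w) :=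
  strictMono_nat_of_lt_succ (ts_lt_succ hw)

lemma ms_strictMono (hw : Approx w) : StrictMono (ms w) := by
  refine strictMono_nat_of_lt_succ fun i => ?_
  have := ms_le_ts hw i
  rw [ms_succ]
  omega

/-- The interval of names of a true promise. -/
def InJ (w : ℕ → ℕ → ℕ) (p u : ℕ) : Prop := ms w p ≤ u ∧ u ≤ ts w p

lemma exists_inJ (hw : Approx w) (u : ℕ) : ∃ p, InJ w p u := by
  classical
  have hex : ∃ p, u ≤ ts w p := ⟨u, (ts_strictMono hw).id_le u⟩
  refine ⟨Nat.find hex, ?_, Nat.find_spec hex⟩
  rcases h : Nat.find hex with _ | p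
  · exact Nat.zero_le _
  · have := Nat.find_min hex (m := p) (by omega)
    rw [ms_succ]
    omega

lemma inJ_unique (hw : Approx w) {p q u : ℕ} (h1 : InJ w p u) (h2 : InJ w q u) : p = q := by
  have key : ∀ p q, InJ w p u → InJ w q u → ¬ p < q := by
    intro p q h1 h2 hlt
    have h3 : ms w (p + 1) ≤ ms w q := (ms_strictMono hw).monotone hlt
    rw [ms_succ] at h3
    have h4 := h1.2
    have h5 := h2.1
    omega
  have a := key p q h1 h2
  have b := key q p h2 h1
  omega

/-- The chain claim: an active promise extending a true one is that promise or is longer than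
the next true one. -/
lemma chain_claim (hw : Approx w) (n : ℕ) : ∀ (i t s : ℕ), ts w i < s → (n, t) ∈ pr w s →
    ms w i ≤ n → IsPre (tpn w (ms w i)) (nd w (n, t)) →
    (n = ms w i ∧ t = ts w i) ∨ ms w (i + 1) ≤ n := by
  induction n using Nat.strong_induction_on with
  | _ n ih =>
    intro i t s hs hmem hle hpre
    have hlen := nd_length hmem
    simp only at hlen
    rcases Nat.eq_or_lt_of_le hle with heq | hlt
    · left
      have h1 : nd w (n, t) = tpn w (ms w i) := by
        refine (isPre_eq hpre (isPre_refl _) ?_).symm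
        rw [hlen, tpn_length]; exact heq
      have h2 := pr_unique hmem ((perm_ts hw i).1 s hs) heq.symm (by rw [h1, (perm_ts hw i).2])
      have h3 := congrArg Prod.snd h2
      exact ⟨heq.symm, h3⟩
    · right
      obtain ⟨⟨n', t'⟩, hq', h1, h2⟩ := pr_pred hmem (by simp only; omega)
      simp only at h1
      have hn't' := pr_fst_le hq'
      simp only at hn't'
      have hn' : n' < n := by omega
      have hlen' := nd_length hq'
      simp only at hlen'
      rcases Nat.lt_or_ge n' (ms w i) with hcase | hcase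
      · exfalso
        -- the largest true index with `ms ≤ n'`
        classical
        obtain ⟨i', hi'⟩ := exists_inJ hw n'
        have hi'i : i' < i := by
          by_contra hcon
          have := (ms_strictMono hw).monotone (not_lt.1 hcon)
          have := hi'.1
          omega
        have hts : ts w i' < s := ((ts_strictMono hw) hi'i).trans hs
        have hpre' : IsPre (tpn w (ms w i')) (nd w (n', t')) := by
          have h3 : IsPre (tpn w (ms w i')) (nd w (n, t)) :=
            isPre_trans (tpn_isPre ((ms_strictMono hw) hi'i).le) hpre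
          refine isPre_of_isPre_length h3 h2 ?_
          rw [tpn_length, hlen']; exact hi'.1
        rcases ih n' hn' i' t' s hts hq' hi'.1 hpre' with h4 | h4
        · have h5 : ms w (i' + 1) ≤ ms w i := (ms_strictMono hw).monotone hi'i
          rw [ms_succ] at h5
          omega
        · rw [ms_succ] at h4
          have := hi'.2
          omega
      · have hpre' : IsPre (tpn w (ms w i)) (nd w (n', t')) := by
          refine isPre_of_isPre_length hpre h2 ?_
          rw [tpn_length, hlen']; exact hcase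
        rcases ih n' hn' i t' s hs hq' hcase hpre' with h4 | h4
        · rw [ms_succ]; omega
        · omega

/-- When a stage ends at the node of the true path of length `u`, all active promises whose
interval contains `u` are within the true interval of `u`. -/
lemma active_interval (hw : Approx w) {s u p n t : ℕ} (hu : InJ w p u) (hs : ts w p ≤ s)
    (hd : dl w s = tpn w u) (hmem : (n, t) ∈ pr w (s + 1)) (h1 : n ≤ u) (h2 : u ≤ t) :
    ms w p ≤ n ∧ t ≤ ts w p := by
  classical
  have hlen := nd_length hmem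
  simp only at hlen
  have halive := pr_alive hmem s (Nat.lt_succ_iff.1 (pr_lt hmem)) (Nat.lt_succ_self s)
  -- the largest `i` such that the true node of index `i` is an initial segment
  let Q : ℕ → Prop := fun i => ms w i ≤ n ∧ IsPre (tpn w (ms w i)) (nd w (n, t))
  have hQ0 : Q 0 := ⟨Nat.zero_le _, by simpa [ms_zero, tpn] using isPre_nil _⟩
  have hQb : ∀ i, Q i → i ≤ n := fun i hi => ((ms_strictMono hw).id_le i).trans hi.1
  obtain ⟨i, hi, hmax⟩ : ∃ i, Q i ∧ ¬ Q (i + 1) := by
    by_contra hcon
    push Not at hcon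
    have : ∀ i, Q i := fun i => by
      induction i with
      | zero => exact hQ0
      | succ i ih => exact hcon i ih
    have := hQb _ (this (n + 1))
    omega
  have hip : i ≤ p := by
    by_contra hcon
    have h3 : ms w (p + 1) ≤ ms w i := (ms_strictMono hw).monotone (by omega)
    rw [ms_succ] at h3
    have := hu.2
    have := hi.1
    omega
  have hts : ts w i < s + 1 := by
    have := (ts_strictMono hw).monotone hip
    omega
  rcases chain_claim hw n i t (s + 1) hts hmem hi.1 hi.2 with h3 | h3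
  · have : InJ w i u := ⟨by omega, by omega⟩
    have hpi := inJ_unique hw this hu
    subst hpi
    omega
  · -- the promise leaves the true path before the next true node
    have hip' : i < p := by
      rcases Nat.eq_or_lt_of_le hip with h | h
      · subst h
        rw [ms_succ] at h3
        have := hu.2
        omega
      · exact h
    have hnot : ¬ IsPre (tpn w (ms w (i + 1))) (nd w (n, t)) := fun h => hmax ⟨h3, h⟩
    -- first difference
    have hdiff : ∃ j, j < ms w (i + 1) ∧ (nd w (n, t)).getD j 0 ≠ tp w j := by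
      by_contra hcon
      push Not at hcon
      apply hnot
      unfold IsPre
      rw [tpn_length]
      refine List.ext_getElem ?_ fun k hk1 hk2 => ?_
      · rw [List.length_take, hlen, tpn_length]; omega
      · rw [tpn_length] at hk2
        have := hcon k hk2
        rw [List.getD_eq_getElem _ _ (by omega)] at this
        rw [List.getElem_take, this]
        simp [tpn]
    have hj1 := Nat.find_spec hdiff
    set j := Nat.find hdiff with hj
    have hj2 : ∀ k < j, (nd w (n, t)).getD k 0 = tp w k := by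
      intro k hk
      by_contra hne
      exact Nat.find_min hdiff hk ⟨by omega, hne⟩
    have hjn : j < n := by omega
    have hpj : IsPre (tpn w j) (nd w (n, t)) := by
      unfold IsPre
      rw [tpn_length]
      refine List.ext_getElem ?_ fun k hk1 hk2 => ?_
      · rw [List.length_take, hlen, tpn_length]; omega
      · rw [tpn_length] at hk2
        have := hj2 k hk2
        rw [List.getD_eq_getElem _ _ (by omega)] at this
        rw [List.getElem_take, this]
        simp [tpn]
    set b := (nd w (n, t)).getD j 0 with hb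
    have hpb : IsPre (tpn w j ++ [b]) (nd w (n, t)) := by
      unfold IsPre at hpj ⊢
      rw [tpn_length] at hpj
      rw [List.length_append, tpn_length, List.length_singleton,
        List.take_succ_eq_append_getElem (by omega), hpj, hb,
        List.getD_eq_getElem _ _ (by omega)]
    have hpt : IsPre (tpn w j ++ [tp w j]) (dl w s) := by
      rw [hd, ← tpn_succ]; exact tpn_isPre (by omega)
    have hlt : b < tp w j := by
      rcases lt_trichotomy b (tp w j) with h | h | h
      · exact h
      · exact absurd h hj1.2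
      · exact absurd (leftOf_iff.2 ⟨_, _, _, hpt, hpb, h⟩) halive
    -- so the creation stage is left of the next true node
    have hleft : LeftOf (dl w t) (tpn w (ms w (i + 1))) := by
      refine leftOf_iff.2 ⟨tpn w j, b, tp w j, ?_, ?_, hlt⟩
      · exact isPre_trans hpb (nd_isPre (n, t))
      · rw [← tpn_succ]; exact tpn_isPre hj1.1
    have ht : t < ts w (i + 1) := by
      by_contra hcon
      have hperm := perm_ts hw (i + 1)
      have h5 := pr_alive (hperm.1 (t + 1) (by simp only; omega)) t (by simp only; omega)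
        (Nat.lt_succ_self t)
      rw [hperm.2] at h5
      exact h5 hleft
    have hJ : InJ w (i + 1) u := ⟨by omega, by omega⟩
    have := inJ_unique hw hJ hu
    subst this
    exact ⟨h3, ht.le⟩

/-- Coding: the limits of the approximations at numbers below `ms i` are at most `ts i`. -/
lemma lim_le_ts (hw : Approx w) {i k L : ℕ} (hk : k < ms w i) (hL : IsLim w k L) :
    L ≤ ts w i := by
  have h := perm_ts hw i
  refine lim_le_of_visit (n := ms w i) hk hL hw ?_
  rw [← h.2]
  exact nd_isPre (ms w i, ts w i)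

end

end Pool.Agent.Helper578.SE
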